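import Pool.Agent.H37.STPA.Reg

/-!
# The law of line and time on events
-/

set_option autoImplicit false

namespace Pool.STPA

open Finset Real
open Pool.Agent.H49.Ent Pool.Agent.H32.Dense Pool.STK Pool.KA Pool.KSAT Pool.K2S Pool.FLF

variable {m J : ℕ}

/-- Laws on the restriction to an event. -/
lemma law_sub_le {F : Fam m J} {A : F.Ω → Prop} (hA : 0 < Pe F.p A) {S : Type} (f : F.Ω → S)
    (s : S) : law (Fam.sub F A hA).p (fun ω : {ω // A ω} => f ω.1) s ≤ law F.p f s / Pe F.p A := by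
  classical
  have h0 := F.isLaw.nonneg
  have h1 : law (Fam.sub F A hA).p (fun ω : {ω // A ω} => f ω.1) s =
      law (Pool.Agent.H49.Ent.cond F.p A True) f s := sub_marg.law f s
  rw [h1]
  have hlt : law F.p A True = Pe F.p A := rfl
  unfold law at hlt ⊢
  rw [Finset.sum_div]
  refine Finset.sum_le_sum fun ω _ => ?_
  by_cases h : f ω = s
  · rw [if_pos h, if_pos h]
    unfold Pool.Agent.H49.Ent.cond
    split_ifs with h2
    · exact le_of_eq (by rw [← hlt]; rfl)
    · exact div_nonneg (h0 ω) hA.le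
  · rw [if_neg h, if_neg h, zero_div]

/-- **The time deficit of a large event of a regular family.** -/
theorem sub_Tm_of_reg {F : Fam m J} {e e' s : ℝ} (hTr : F.Tr) (hTm : F.Tm e') (hRb : F.Rb e)
    {A : F.Ω → Prop} (hA : 0 < Pe F.p A) (hs : Real.exp (-s) ≤ Pe F.p A) :
    (Fam.sub F A hA).Tm (4 * e + e' + s) := by
  classical
  obtain ⟨μ, hμ0, hμ1, hμ⟩ := reg_law F hTr hTm hRb
  obtain ⟨z₀, hz₀⟩ := hTr
  have hq := (Fam.sub F A hA).isLaw
  have hq0 := hq.nonneg
  have e2 : (2 : ℝ) ^ J = Real.exp (J * Real.log 2) := by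
    rw [mul_comm, Real.exp_mul, Real.exp_log (by norm_num)]
    simp
  have hb : ∀ ω : {ω // A ω}, law (Fam.sub F A hA).p (fun ω => ((Fam.sub F A hA).l ω,
      (Fam.sub F A hA).T ω)) ((Fam.sub F A hA).l ω, (Fam.sub F A hA).T ω) ≤
      Real.exp (4 * e + e' + s) * μ ((Fam.sub F A hA).l ω) / 2 ^ J := by
    intro ω
    have h1 := law_sub_le hA (fun ω => (F.l ω, F.T ω)) (F.l ω.1, F.T ω.1)
    refine h1.trans ?_
    rw [div_le_iff₀ hA]
    refine (hμ _ _).trans ?_
    have h2 : Real.exp (4 * e + e') ≤ Real.exp (4 * e + e' + s) * Pe F.p A := by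
      calc Real.exp (4 * e + e') = Real.exp (4 * e + e' + s) * Real.exp (-s) := by
            rw [← Real.exp_add]; congr 1; ring
        _ ≤ _ := mul_le_mul_of_nonneg_left hs (Real.exp_pos _).le
    have h3 : 0 ≤ μ (F.l ω.1) / 2 ^ J := div_nonneg (hμ0 _) (by positivity)
    calc Real.exp (4 * e + e') * μ (F.l ω.1) / 2 ^ J =
          Real.exp (4 * e + e') * (μ (F.l ω.1) / 2 ^ J) := by ring
      _ ≤ Real.exp (4 * e + e' + s) * Pe F.p A * (μ (F.l ω.1) / 2 ^ J) :=
          mul_le_mul_of_nonneg_right h2 h3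
      _ = _ := by
          change _ = Real.exp (4 * e + e' + s) * μ (F.l ω.1) / 2 ^ J * Pe F.p A
          ring
  have h4 := time_of_law hq (Fam.sub F A hA).l (Fam.sub F A hA).T hμ0 hμ1
    (by positivity : (0 : ℝ) < 2 ^ J) hb
  unfold Fam.Tm
  rw [Real.log_pow] at h4
  refine h4.trans (le_of_eq ?_)
  refine CH_congr hq0 (fun ω ω' _ _ h => (Prod.ext_iff.mp h).1)
    (fun ω ω' _ _ h => (Prod.ext_iff.mp h).1) ?_ ?_
  · intro ω ω' h1 h2 h
    refine Prod.ext h ?_
    have k1 : F.p ω.1 ≠ 0 := by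
      intro h0
      have : (Fam.sub F A hA).p ω = 0 := by
        change F.p ω.1 / Pe F.p A = 0
        rw [h0, zero_div]
      rw [this] at h1
      exact lt_irrefl _ h1
    have k2 : F.p ω'.1 ≠ 0 := by
      intro h0
      have : (Fam.sub F A hA).p ω' = 0 := by
        change F.p ω'.1 / Pe F.p A = 0
        rw [h0, zero_div]
      rw [this] at h2
      exact lt_irrefl _ h2
    exact (hz₀ ω.1 k1).trans (hz₀ ω'.1 k2).symm
  · intro ω ω' _ _ h
    exact (Prod.ext_iff.mp h).1

end Pool.STPA
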