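import Pool.Agent.H37.STPA.Thin

/-!
# Auxiliary facts: times of lower resolution, few values
-/

set_option autoImplicit false

namespace Pool.STPA

open Finset Real
open Pool.Agent.H49.Ent Pool.Agent.H32.Dense Pool.STK Pool.KA Pool.KSAT Pool.K2S Pool.KS3 Pool.FLF
open Pool.KAL Pool.PB

variable {m J : ℕ}

/-- The law of the line and of the time of lower resolution. -/
lemma law_T1 (F : Fam m J) {μ : ((Fin m → ℝ) × (Fin m → ℝ)) → ℝ} {c : ℝ}
    (hμ : ∀ l T, law F.p (fun ω => (F.l ω, F.T ω)) (l, T) ≤ c * μ l / 2 ^ J) {P : ℕ} (hP : P ≤ J)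
    (l : (Fin m → ℝ) × (Fin m → ℝ)) (t : ℕ) :
    law F.p (fun ω => (F.l ω, F.T1 P ω)) (l, t) ≤ c * μ l / 2 ^ P := by
  classical
  have h0 := F.isLaw.nonneg
  obtain ⟨K, hK⟩ : ∃ K, K = 2 ^ (J - P) := ⟨_, rfl⟩
  have hK0 : 0 < K := by rw [hK]; positivity
  have h1 : law F.p (fun ω => (F.l ω, F.T1 P ω)) (l, t) ≤
      ∑ k ∈ range K, law F.p (fun ω => (F.l ω, F.T ω)) (l, K * t + k) := by
    unfold law
    rw [Finset.sum_comm]
    refine Finset.sum_le_sum fun ω _ => ?_
    by_cases h : (F.l ω, F.T1 P ω) = (l, t)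
    · rw [if_pos h]
      have h2 := Prod.ext_iff.mp h
      have h3 : F.T ω / K = t := by rw [hK]; exact h2.2
      have h4 := Nat.div_add_mod (F.T ω) K
      rw [h3] at h4
      have h5 : (F.l ω, F.T ω) = (l, K * t + F.T ω % K) := Prod.ext h2.1 h4.symm
      have h6 := Finset.single_le_sum (f := fun k => if (F.l ω, F.T ω) = (l, K * t + k)
        then F.p ω else 0) (s := range K) (fun k _ => by
          split_ifs
          exacts [h0 ω, le_rfl]) (Finset.mem_range.2 (Nat.mod_lt (F.T ω) hK0))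
      rw [if_pos h5] at h6
      refine h6.trans (Finset.sum_le_sum fun k _ => ?_)
      by_cases h7 : (F.l ω, F.T ω) = (l, K * t + k)
      · rw [if_pos h7, if_pos h7]
      · rw [if_neg h7, if_neg h7]
    · rw [if_neg h]
      exact Finset.sum_nonneg fun k _ => by
        split_ifs
        exacts [h0 ω, le_rfl]
  refine h1.trans ((Finset.sum_le_sum fun k _ => hμ l (K * t + k)).trans (le_of_eq ?_))
  rw [Finset.sum_const, Finset.card_range, nsmul_eq_mul, hK]
  have e1 : (2 : ℝ) ^ J = 2 ^ (J - P) * 2 ^ P := by rw [← pow_add]; congr 1; omega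
  rw [e1]
  push_cast
  field_simp

/-- The values which are not rare, given `W`. -/
def Nr {Ω S T : Type} [Fintype Ω] (q : Ω → ℝ) (V : Ω → S) (W : Ω → T) (E : ℝ) (v : S) (w : T) :
    Prop := Real.exp (-(4 * E)) * law q W w ≤ law q (fun ω => (V ω, W ω)) (v, w)

/-- Most values are not rare. -/
theorem nr_mass {Ω S T : Type} [Fintype Ω] {q : Ω → ℝ} (hq : IsLaw q) (V : Ω → S) (W : Ω → T)
    {E : ℝ} (hE : 0 < E) (h : CH q V W ≤ E) :
    3 / 4 ≤ Pe q (fun ω => Nr q V W E (V ω) (W ω)) := by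
  classical
  have h0 := hq.nonneg
  have h1 : (1 - Pe q (fun ω => Nr q V W E (V ω) (W ω))) * (4 * E) ≤ CH q V W := by
    rw [CH_eq_neg_sum h0 V W]
    have h2 : (1 - Pe q (fun ω => Nr q V W E (V ω) (W ω))) * (4 * E) =
        ∑ ω, (q ω - if Nr q V W E (V ω) (W ω) then q ω else 0) * (4 * E) := by
      rw [← Finset.sum_mul, Finset.sum_sub_distrib, hq.sum_one, Pe_eq]
    rw [h2]
    unfold Ex
    refine Finset.sum_le_sum fun ω _ => ?_
    rcases (h0 ω).eq_or_lt with h3 | h3
    · rw [← h3]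
      simp
    have h4 := law_pos h0 (fun ω => (V ω, W ω)) h3
    have h5 := law_pos h0 W h3
    by_cases h6 : Nr q V W E (V ω) (W ω)
    · rw [if_pos h6, sub_self, zero_mul]
      refine mul_nonneg h3.le (neg_nonneg.2 (Real.log_nonpos (by positivity) ?_))
      rw [div_le_one h5]
      unfold law
      refine Finset.sum_le_sum fun ω' _ => ?_
      by_cases h7 : (V ω', W ω') = (V ω, W ω)
      · rw [if_pos h7, if_pos (Prod.ext_iff.mp h7).2]
      · rw [if_neg h7]
        split_ifs
        exacts [h0 ω', le_rfl]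
    · rw [if_neg h6, sub_zero]
      refine mul_le_mul_of_nonneg_left ?_ h3.le
      unfold Nr at h6
      push Not at h6
      rw [le_neg, Real.log_le_iff_le_exp (div_pos h4 h5), div_le_iff₀ h5]
      exact h6.le
  have h2 : (1 - Pe q (fun ω => Nr q V W E (V ω) (W ω))) * (4 * E) ≤ 1 / 4 * (4 * E) := by
    linarith
  have h3 := le_of_mul_le_mul_right h2 (by positivity : (0 : ℝ) < 4 * E)
  linarith

/-- There are few values which are not rare. -/
theorem nr_card {Ω S T : Type} [Fintype Ω] {q : Ω → ℝ} (hq : IsLaw q) (V : Ω → S) (W : Ω → T)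
    {E : ℝ} {w : T} (hw : 0 < law q W w) (G : Finset S) (h : ∀ v ∈ G, Nr q V W E v w) :
    (G.card : ℝ) ≤ Real.exp (4 * E) := by
  classical
  have h0 := hq.nonneg
  have h1 : ∑ v ∈ G, law q (fun ω => (V ω, W ω)) (v, w) ≤ law q W w := by
    unfold law
    rw [Finset.sum_comm]
    refine Finset.sum_le_sum fun ω _ => ?_
    beta_reduce
    by_cases h2 : W ω = w
    · rw [if_pos h2]
      refine le_trans (Finset.sum_le_sum (g := fun v => if V ω = v then q ω else 0)
        fun v _ => ?_) ?_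
      · by_cases h4 : V ω = v
        · rw [if_pos h4, if_pos (Prod.ext h4 h2)]
        · rw [if_neg (fun h => h4 (Prod.ext_iff.mp h).1)]
          exact le_of_eq (if_neg h4).symm
      · rw [Finset.sum_ite_eq]
        split_ifs
        exacts [le_rfl, h0 ω]
    · rw [if_neg h2]
      refine le_of_eq (Finset.sum_eq_zero fun v _ => ?_)
      rw [if_neg (fun h => h2 (Prod.ext_iff.mp h).2)]
  have h2 : ∑ v ∈ G, Real.exp (-(4 * E)) * law q W w ≤
      ∑ v ∈ G, law q (fun ω => (V ω, W ω)) (v, w) := Finset.sum_le_sum fun v hv => h v hv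
  rw [Finset.sum_const, nsmul_eq_mul] at h2
  have h3 := h2.trans h1
  have h4 : (G.card : ℝ) * Real.exp (-(4 * E)) ≤ 1 := by
    have : (G.card : ℝ) * Real.exp (-(4 * E)) * law q W w ≤ 1 * law q W w := by linarith
    exact le_of_mul_le_mul_right this hw
  rw [Real.exp_neg] at h4
  rwa [← div_eq_mul_inv, div_le_one (Real.exp_pos _)] at h4

end Pool.STPA
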