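import Pool.Agent.H37.STPA.SlLab2

/-!
# From closed labels to leaves

A label which is a function of the point and of the line with the window, such that the label
determines with the base coordinates the passive coordinate up to `B` values: on an event whose
relative probability is at least a constant the conditional laws of most label values are leaves.
-/

set_option autoImplicit false

namespace Pool.STPA

open Finset Real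
open Pool.Agent.H49.Ent Pool.Agent.H32.Dense Pool.STK Pool.KA Pool.KSAT Pool.K2S Pool.KS3 Pool.FLF
open Pool.KAL Pool.PB

variable {m J : ℕ}

lemma Pe_ne_zero_and {Ω : Type} [Fintype Ω] {p : Ω → ℝ} (A : Ω → Prop) :
    Pe p (fun ω => A ω ∧ p ω ≠ 0) = Pe p A := by
  classical
  rw [Pe_eq, Pe_eq]
  refine Finset.sum_congr rfl fun ω _ => ?_
  by_cases h : A ω
  · by_cases h0 : p ω = 0
    · rw [if_pos h, if_neg (fun h' => h'.2 h0), h0]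
    · rw [if_pos h, if_pos ⟨h, h0⟩]
  · rw [if_neg h, if_neg (fun h' => h h'.1)]

lemma Pe_split_le {Ω : Type} [Fintype Ω] {p : Ω → ℝ} {A B B' : Ω → Prop}
    (hp : ∀ ω, 0 ≤ p ω) (h : ∀ ω, A ω → B ω ∨ B' ω) : Pe p A ≤ Pe p B + Pe p B' := by
  classical
  rw [Pe_eq, Pe_eq, Pe_eq, ← Finset.sum_add_distrib]
  refine Finset.sum_le_sum fun ω _ => ?_
  by_cases hA : A ω
  · rcases h ω hA with h1 | h1
    · rw [if_pos hA, if_pos h1]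
      split_ifs <;> linarith [hp ω]
    · rw [if_pos hA, if_pos h1]
      split_ifs <;> linarith [hp ω]
  · rw [if_neg hA]
    split_ifs <;> linarith [hp ω]

/-- **From a closed label to leaves**, with the fans at the exact points. -/
theorem c1n_thm (m : ℕ) : ∃ C : ℝ, 1 ≤ C ∧ ∀ (J : ℕ) (F : Fam m J) (i₁ : Fin m) (A : F.Ω → Prop)
    (h w L P r κ γ B : ℕ) (δ ψ g e e' s : ℝ) (Z : Type)
    (zx : (Fin m → ℤ) × (ℕ × F.ζ) → Z)
    (zs : ((Fin m → ℝ) × (Fin m → ℝ)) × F.ζ × ℕ → Z) (cz : Z → ℕ × (Fin m → ℤ)),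
    F.Tr → F.Tm e' → F.Rb e → Real.exp (-s) ≤ Pe F.p A → 0 ≤ e → 0 ≤ e' → 0 ≤ s →
    Ch F i₁ h A → Sp F (m - 2) ψ g A → 0 < δ → δ < 1 / 2 →
    1 / 2 ^ h + 2 * m * δ ≤ 1 / 2 ^ ⌊g * J⌋₊ →
    m.factorial * (2 : ℝ) ^ m ≤ δ ^ m * 2 ^ γ → 1 ≤ κ → C ≤ ψ * J →
    w + L = P → P ≤ r → r ≤ J → 1 ≤ B →
    (∀ ω, A ω → zx (ptr F r ω) = zs (slam F w ω)) →
    (∀ ω, A ω → cz (zx (ptr F r ω)) = (F.T1 w ω, F.X w ω)) →
    (∀ ω, A ω → (open Classical in ((univ.filter (fun ω' => A ω' ∧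
      zx (ptr F r ω') = zx (ptr F r ω) ∧ F.T ω' = F.T ω ∧
      ∀ j ≠ i₁, F.X r ω' j = F.X r ω j)).image (fun ω' => F.X P ω' i₁)).card) ≤ B) →
    ∃ (A' : F.Ω → Prop) (hA' : 0 < Pe F.p A')
      (cl : ((Fin m → ℝ) × (Fin m → ℝ)) × F.ζ × ℕ → Fin m → ℤ)
      (μ : Z → ((Fin m → ℝ) × (Fin m → ℝ)) × F.ζ × ℕ → ℝ) (Gd : Z → Prop),
      Sub A' A ∧ Real.exp (-C) * Pe F.p A ≤ Pe F.p A' ∧
      (∀ ω, A' ω → F.X w ω = cl (slam F w ω)) ∧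
      NCF (Fam.sub F A' hA').p (slam (Fam.sub F A' hA') w) (Fam.pt (Fam.sub F A' hA'))
        (lB (chI i₁)) δ (fun _ => Real.exp (-(ψ * J / 4))) ∧
      3 / 4 ≤ Pe (Fam.sub F A' hA').p (fun ω => Gd (zx (ptr (Fam.sub F A' hA') r ω))) ∧
      ∀ y, law (Fam.sub F A' hA').p (fun ω => zx (ptr (Fam.sub F A' hA') r ω)) y ≠ 0 → Gd y →
        Pool.KBX.SL L 2 δ (Real.exp (-(ψ * J / 4))) (4 * e + e' + s + C)
          (4 * (Real.log B + 2 * (m * (4 * e + e' + s + C) +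
            C * (J / κ + γ + κ + 1 + Real.exp (-(ψ * J / 4)) * J)) + 1))
          (Pool.Agent.H49.Ent.cond (Fam.sub F A' hA').p
            (fun ω => zx (ptr (Fam.sub F A' hA') r ω)) y)
          (slam (Fam.sub F A' hA') w) (trp (Fam.sub F A' hA') P) (pT L) (ppos L (chI i₁))
          (lA w (chI i₁) cl) (lB (chI i₁)) (μ y) := by
  classical
  obtain ⟨C₁, hC₁, hthin⟩ := thin_c m
  have hm0 : (0 : ℝ) ≤ m := Nat.cast_nonneg m
  have hl3 : 0 < Real.log 3 := Real.log_pos (by norm_num)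
  have hl2 : 0 < Real.log 2 := Real.log_pos (by norm_num)
  refine ⟨C₁ + 4 * m * Real.log 3 + 8 * Real.log 2 + 4, ?_, ?_⟩
  · have : 0 ≤ 4 * m * Real.log 3 := by positivity
    linarith only [hC₁, hl2, this]
  intro J F i₁ A h w L P r κ γ B δ ψ g e e' s Z zx zs cz hTr hTm hRb hPA he he' hs hCh hSp hδ
    hδ2 hδg hγ hκ hCψ hwL hPr hr hB hz hcz hN
  obtain ⟨C, hC⟩ : ∃ C, C = C₁ + 4 * m * Real.log 3 + 8 * Real.log 2 + 4 := ⟨_, rfl⟩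
  rw [← hC] at hCψ ⊢
  have hm3 : 0 ≤ m * Real.log 3 := by positivity
  have hCC₁ : C₁ ≤ C := by rw [hC]; linarith only [hl2, hδ, hδ2, hm3]
  have hp := F.isLaw
  have hp0 := hp.nonneg
  have hPJ : P ≤ J := hPr.trans hr
  have hwJ : w ≤ J := by omega
  have hPA0 : 0 < Pe F.p A := (Real.exp_pos _).trans_le hPA
  obtain ⟨z₀, hz₀⟩ := hTr
  have hTr' : F.Tr := ⟨z₀, hz₀⟩
  have hJ0 : (0 : ℝ) < J := by
    rcases (Nat.cast_nonneg J : (0 : ℝ) ≤ J).eq_or_lt with h1 | h1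
    · rw [← h1, mul_zero] at hCψ
      linarith only [hC₁, hl2, hδ, hδ2, hCψ, hC, hm3]
    · exact h1
  -- the cells
  obtain ⟨Aa, hAa, hPa, cl, hcl⟩ := cell_event F hwJ A
  obtain ⟨Ab, hAb, hPb, cl', hcl'⟩ := cell_event F hPJ Aa
  obtain ⟨A₀, hA₀⟩ : ∃ A₀ : F.Ω → Prop, A₀ = fun ω => Ab ω ∧ F.p ω ≠ 0 := ⟨_, rfl⟩
  have hA₀a : ∀ ω, A₀ ω → Ab ω ∧ F.p ω ≠ 0 := fun ω hω => by rwa [hA₀] at hω
  have hP₀ : Pe F.p A / 9 ^ m ≤ Pe F.p A₀ := by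
    rw [hA₀, Pe_ne_zero_and]
    have e1 : (9 : ℝ) ^ m = 3 ^ m * 3 ^ m := by rw [← mul_pow]; norm_num
    rw [e1, ← div_div]
    exact (div_le_div_of_nonneg_right hPa (by positivity)).trans hPb
  have hA₀A : Sub A₀ A := fun ω hω => hAa ω (hAb ω (hA₀a ω hω).1)
  have h9 : Real.exp (-(2 * m * Real.log 3)) = 1 / 9 ^ m := by
    have e1 : (9 : ℝ) ^ m = Real.exp (2 * m * Real.log 3) := by
      have e2 : 2 * (m : ℝ) * Real.log 3 = m * Real.log 9 := by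
        have : (9 : ℝ) = 3 ^ 2 := by norm_num
        rw [this, Real.log_pow]
        push_cast
        ring
      rw [e2, mul_comm, Real.exp_mul, Real.exp_log (by norm_num)]
      simp
    rw [e1, Real.exp_neg, one_div]
  have hP₀pos : 0 < Pe F.p A₀ := lt_of_lt_of_le (by positivity) hP₀
  -- the fans
  have hκ₀ : (ψ - 2 * m * Real.log 3 / J) * J = ψ * J - 2 * m * Real.log 3 := by
    field_simp
  have hκ₀4 : ψ * J / 4 ≤ (ψ - 2 * m * Real.log 3 / J) * J / 2 := by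
    rw [hκ₀]
    linarith only [hC₁, hl2, hδ, hδ2, hCψ, hC]
  have hSp₀ : Sp F (m - 2) (ψ - 2 * m * Real.log 3 / J) g A₀ := by
    refine Sp.sub hA₀A ?_ hSp
    have e1 : 2 * m * Real.log 3 / J * J = 2 * m * Real.log 3 := by field_simp
    rw [e1, h9]
    refine le_trans (le_of_eq ?_) hP₀
    ring
  have hψ' : 0 ≤ ψ - 2 * m * Real.log 3 / J := by
    have h1 : 0 ≤ (ψ - 2 * m * Real.log 3 / J) * J := by
      have : 0 ≤ ψ * J := by linarith only [hC₁, hl2, hδ, hδ2, hCψ, hC, hm3]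
      linarith only [hC₁, hl2, hδ, hδ2, hCψ, hC, hm3, hκ₀]
    exact nonneg_of_mul_nonneg_left h1 hJ0
  obtain ⟨hStb, hnF⟩ := slb_of_sp (Ch.hered F i₁ h A A₀ hA₀A hCh) hSp₀ hδ2 hδg hψ' w
  obtain ⟨ea, hea0, -, heab, hncf⟩ := ncf_of_stb hp hP₀pos (slam F w) (Fam.pt F) (lB (chI i₁))
    hStb hnF
  obtain ⟨ε₀, hε₀⟩ : ∃ ε₀, ε₀ = Real.exp (-((ψ - 2 * m * Real.log 3 / J) * J / 2)) := ⟨_, rfl⟩
  obtain ⟨ε, hε⟩ : ∃ ε, ε = Real.exp (-(ψ * J / 4)) := ⟨_, rfl⟩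
  rw [← hε]
  rw [← hε₀] at heab
  have hεpos : 0 < ε := by rw [hε]; exact Real.exp_pos _
  have hε₀ε : ε₀ ≤ ε := by
    rw [hε₀, hε]
    refine Real.exp_le_exp.2 ?_
    linarith only [hC₁, hl2, hδ, hδ2, hCψ, hC, hκ₀]
  have hε2 : ε ≤ 1 / 2 := by
    rw [hε, Real.exp_neg, one_div]
    refine inv_anti₀ (by norm_num) ?_
    rw [← Real.log_le_iff_le_exp (by norm_num)]
    linarith only [hC₁, hl2, hδ, hδ2, hCψ, hC, hm3]
  obtain ⟨A₁, hA₁⟩ : ∃ A₁ : F.Ω → Prop, A₁ = fun ω => A₀ ω ∧ ea (Fam.pt F ω) ≤ ε₀ := ⟨_, rfl⟩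
  have hA₁a : ∀ ω, A₁ ω ↔ A₀ ω ∧ ea (Fam.pt F ω) ≤ ε₀ := fun ω => by rw [hA₁]
  have hP₁ : Pe F.p A₀ / 2 ≤ Pe F.p A₁ := by
    have h1 : Pe F.p (fun ω => A₀ ω ∧ ε₀ < ea (Fam.pt F ω)) ≤ ε₀ * Pe F.p A₀ := by
      rw [sum_sp (p := F.p) (A := A₀) (fun ω => ε₀ < ea (Fam.pt F ω)) _ (fun ω hω => if_pos hω)
        (fun ω hω => if_neg hω), div_le_iff₀ hP₀pos] at heab
      exact heab
    have h2 : Pe F.p A₀ ≤ Pe F.p A₁ + Pe F.p (fun ω => A₀ ω ∧ ε₀ < ea (Fam.pt F ω)) := by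
      refine Pe_split_le hp0 fun ω hω => ?_
      rcases le_or_gt (ea (Fam.pt F ω)) ε₀ with h3 | h3
      · exact Or.inl ((hA₁a ω).2 ⟨hω, h3⟩)
      · exact Or.inr ⟨hω, h3⟩
    have h3 : ε₀ * Pe F.p A₀ ≤ 1 / 2 * Pe F.p A₀ :=
      mul_le_mul_of_nonneg_right (hε₀ε.trans hε2) hP₀pos.le
    linarith only [h1, h2, h3]
  have hP₁pos : 0 < Pe F.p A₁ := lt_of_lt_of_le (by positivity) hP₁
  have hA₁A₀ : Sub A₁ A₀ := fun ω hω => ((hA₁a ω).1 hω).1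
  have hA₁A : Sub A₁ A := fun ω hω => hA₀A ω (hA₁A₀ ω hω)
  have hncf₁ : NCF (Fam.sub F A₁ hP₁pos).p (slam (Fam.sub F A₁ hP₁pos) w)
      (Fam.pt (Fam.sub F A₁ hP₁pos)) (lB (chI i₁)) δ (fun _ => ε) :=
    ncf_sp (lam := slam F w) (x := Fam.pt F) (S := fun ξ => ea ξ ≤ ε₀) (B := lB (chI i₁)) (e := ea)
      hp hP₀pos hP₁pos hA₁a (fun ξ hξ => hξ.trans hε₀ε) hncf
  -- the time deficit
  obtain ⟨s₁, hs₁⟩ : ∃ s₁, s₁ = s + 2 * m * Real.log 3 + Real.log 2 := ⟨_, rfl⟩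
  have hPs₁ : Real.exp (-s₁) ≤ Pe F.p A₁ := by
    have e1 : Real.exp (-s₁) = Real.exp (-s) * Real.exp (-(2 * m * Real.log 3)) / 2 := by
      rw [hs₁]
      have e2 : (2 : ℝ) = Real.exp (Real.log 2) := (Real.exp_log (by norm_num)).symm
      conv_rhs => rw [e2]
      rw [← Real.exp_add, ← Real.exp_sub]
      congr 1
      rw [Real.exp_log (by norm_num)]
      ring
    rw [e1, h9]
    refine le_trans (div_le_div_of_nonneg_right ?_ (by norm_num)) hP₁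
    refine le_trans ?_ hP₀
    rw [mul_one_div]
    exact div_le_div_of_nonneg_right hPA (by positivity)
  have hTm₁ := sub_Tm_of_reg hTr' hTm hRb hP₁pos hPs₁
  -- thinness
  have hth := hthin J (Fam.sub F A₁ hP₁pos) i₁ w L P r κ γ B δ ε (4 * e + e' + s₁) Z zx zs cz
    cl cl' hwL hPr hr (fun ω => hcl ω.1 (hAb ω.1 (hA₀a ω.1 (hA₁A₀ ω.1 ω.2)).1))
    (fun ω => hcl' ω.1 (hA₀a ω.1 (hA₁A₀ ω.1 ω.2)).1) (fun ω => hz ω.1 (hA₁A ω.1 ω.2))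
    (fun ω => hcz ω.1 (hA₁A ω.1 ω.2)) (by
      intro ω
      refine le_trans (Finset.card_le_card ?_) (hN ω.1 (hA₁A ω.1 ω.2))
      intro v hv
      obtain ⟨ω', h1, h2⟩ := Finset.mem_image.1 hv
      have h3 := (Finset.mem_filter.1 h1).2
      refine Finset.mem_image.2 ⟨ω'.1, ?_, h2⟩
      rw [Finset.mem_filter]
      exact ⟨Finset.mem_univ _, hA₁A ω'.1 ω'.2, h3⟩) hTm₁ hδ hεpos.le hncf₁ hγ hκ
  obtain ⟨E, hE⟩ : ∃ E, E = Real.log B + 2 * (m * (4 * e + e' + s₁) +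
    C₁ * (J / κ + γ + κ + 1 + ε * J)) + 1 := ⟨_, rfl⟩
  have hlB : 0 ≤ Real.log B := Real.log_nonneg (by exact_mod_cast hB)
  have hs₁0 : 0 ≤ s₁ := by rw [hs₁]; positivity
  have hκr : (0 : ℝ) < κ := by exact_mod_cast hκ
  have hR0 : 0 ≤ J / κ + γ + κ + 1 + ε * J := by positivity
  have hE0 : 0 < E := by
    rw [hE]
    positivity
  obtain ⟨φP, hφP⟩ := trp_coarse F hPJ
  obtain ⟨φr, hφr⟩ := ptr_coarse F hr
  obtain ⟨V, hV⟩ : ∃ V : (Fam.sub F A₁ hP₁pos).Ω → ℤ,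
    V = fun ω => (Fam.sub F A₁ hP₁pos).X P ω i₁ := ⟨_, rfl⟩
  obtain ⟨W, hW⟩ : ∃ W : (Fam.sub F A₁ hP₁pos).Ω → (Fin m → ℕ) × Z,
    W = fun ω => (bas (ppos L (chI i₁)) (trp (Fam.sub F A₁ hP₁pos) P ω),
      zx (ptr (Fam.sub F A₁ hP₁pos) r ω)) := ⟨_, rfl⟩
  rw [← hV, ← hW] at hth
  have hthE : CH (Fam.sub F A₁ hP₁pos).p V W ≤ E := by
    rw [hE]
    linarith only [hP₁pos, hδ, hδ2, hth]
  have hq₁ := (Fam.sub F A₁ hP₁pos).isLaw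
  have hnr := nr_mass hq₁ V W hE0 hthE
  -- the final event
  obtain ⟨A₂, hA₂⟩ : ∃ A₂ : F.Ω → Prop, A₂ = fun ω => ∃ h : A₁ ω,
    Nr (Fam.sub F A₁ hP₁pos).p V W E (V ⟨ω, h⟩) (W ⟨ω, h⟩) := ⟨_, rfl⟩
  have hA₂i : ∀ ω, A₂ ω ↔ ∃ h : A₁ ω,
      Nr (Fam.sub F A₁ hP₁pos).p V W E (V ⟨ω, h⟩) (W ⟨ω, h⟩) := fun ω => by rw [hA₂]
  have hP₂ : 3 / 4 * Pe F.p A₁ ≤ Pe F.p A₂ := by
    rw [hA₂]
    have h1 := sub_Pe hP₁pos (fun ω => Nr (Fam.sub F A₁ hP₁pos).p V W E (V ω) (W ω))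
    rw [h1, mul_comm]
    exact mul_le_mul_of_nonneg_left hnr hP₁pos.le
  have hP₂pos : 0 < Pe F.p A₂ := lt_of_lt_of_le (by positivity) hP₂
  have hA₂A₁ : Sub A₂ A₁ := fun ω hω => by
    rw [hA₂] at hω
    exact hω.1
  have hA₂a : ∀ ω, A₂ ω ↔ A₁ ω ∧ (fun ξ : (Fin m → ℤ) × (ℕ × F.ζ) =>
      Nr (Fam.sub F A₁ hP₁pos).p V W E (ξ.1 i₁ / 2 ^ (J - P))
        (bas (ppos L (chI i₁)) (φP ξ), zx (φr ξ))) (Fam.pt F ω) := by
    intro ω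
    have key : ∀ h : A₁ ω, V ⟨ω, h⟩ = (Fam.pt F ω).1 i₁ / 2 ^ (J - P) ∧
        W ⟨ω, h⟩ = (bas (ppos L (chI i₁)) (φP (Fam.pt F ω)), zx (φr (Fam.pt F ω))) := by
      intro h
      constructor
      · rw [hV]
        exact X_div F (w := P) (L := J - P) (by omega) ω i₁
      · rw [hW]
        have h1 : ptr F r ω = φr (Fam.pt F ω) := hφr ω
        exact Prod.ext (congrArg (bas (ppos L (chI i₁))) (hφP ω)) (congrArg zx h1)
    rw [hA₂]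
    constructor
    · rintro ⟨h1, h2⟩
      refine ⟨h1, ?_⟩
      have := key h1
      rw [this.1, this.2] at h2
      exact h2
    · rintro ⟨h1, h2⟩
      refine ⟨h1, ?_⟩
      have := key h1
      rw [this.1, this.2]
      exact h2
  have hA₂A : Sub A₂ A := fun ω hω => hA₁A ω (hA₂A₁ ω hω)
  have hncf₂ : NCF (Fam.sub F A₂ hP₂pos).p (slam (Fam.sub F A₂ hP₂pos) w)
      (Fam.pt (Fam.sub F A₂ hP₂pos)) (lB (chI i₁)) δ (fun _ => ε) :=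
    ncf_sp (lam := slam F w) (x := Fam.pt F) (S := fun ξ : (Fin m → ℤ) × (ℕ × F.ζ) =>
      Nr (Fam.sub F A₁ hP₁pos).p V W E (ξ.1 i₁ / 2 ^ (J - P))
        (bas (ppos L (chI i₁)) (φP ξ), zx (φr ξ))) (B := lB (chI i₁)) (e := fun _ => ε) hp hP₁pos
      hP₂pos hA₂a (fun ξ _ => le_rfl) hncf₁
  -- the law of the lines
  obtain ⟨μ₀, hμ0, hμ1, hμ⟩ := reg_law F hTr' hTm hRb
  obtain ⟨c, hc⟩ : ∃ c, c = Real.exp (4 * e + e') / Pe F.p A₂ := ⟨_, rfl⟩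
  have hlaw : ∀ l t, law (Fam.sub F A₂ hP₂pos).p (fun ω => ((Fam.sub F A₂ hP₂pos).l ω,
      (Fam.sub F A₂ hP₂pos).T1 P ω)) (l, t) ≤ c * μ₀ l / 2 ^ P := by
    intro l t
    refine (law_sub_le hP₂pos (fun ω => (F.l ω, F.T1 P ω)) (l, t)).trans ?_
    refine (div_le_div_of_nonneg_right (law_T1 F hμ hPJ l t) hP₂pos.le).trans (le_of_eq ?_)
    rw [hc]
    ring
  have hP₂1 : Pe F.p A₂ ≤ 1 := by
    rw [← Pe_univ hp]
    exact Pe_mono hp fun _ _ => trivial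
  have hc1 : 1 ≤ c := by
    rw [hc, le_div_iff₀ hP₂pos, one_mul]
    refine hP₂1.trans ?_
    have : 0 ≤ 4 * e + e' := by linarith only [he, he']
    exact Real.one_le_exp this
  obtain ⟨Λ, hΛ⟩ : ∃ Λ : Finset (((Fin m → ℝ) × (Fin m → ℝ)) × F.ζ × ℕ),
    Λ = (univ : Finset (Fam.sub F A₂ hP₂pos).Ω).image (slam (Fam.sub F A₂ hP₂pos) w) := ⟨_, rfl⟩
  have hΛm : ∀ ω, slam (Fam.sub F A₂ hP₂pos) w ω ∈ Λ := fun ω => by
    rw [hΛ]
    exact Finset.mem_image_of_mem _ (Finset.mem_univ ω)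
  have hZ₂ : ∀ ω, (Fam.sub F A₂ hP₂pos).Z ω = z₀ := fun ω =>
    hz₀ ω.1 (hA₀a ω.1 (hA₁A₀ ω.1 (hA₂A₁ ω.1 ω.2))).2
  have hΛz : ∀ l ∈ Λ, l.2.1 = z₀ ∧ l.2.2 < 2 ^ w := by
    intro l hl
    rw [hΛ] at hl
    obtain ⟨ω, -, rfl⟩ := Finset.mem_image.1 hl
    refine ⟨hZ₂ ω, ?_⟩
    change F.T ω.1 / 2 ^ (J - w) < 2 ^ w
    rw [Nat.div_lt_iff_lt_mul (by positivity), ← pow_add]
    have h1 := F.tim ω.1
    have h2 : w + (J - w) = J := by omega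
    rwa [h2]
  have hgood := good_lab (Fam.sub F A₂ hP₂pos).isLaw
    (fun ω => zx (ptr (Fam.sub F A₂ hP₂pos) r ω)) (Ml w μ₀ zs Λ)
    (fun S => Ml_total hμ0 hμ1 hΛz S) (Ml_nonneg hμ0)
  refine ⟨A₂, hP₂pos, cl, Mu w μ₀ zs Λ, fun y => Ml w μ₀ zs Λ y ≤
    4 * law (Fam.sub F A₂ hP₂pos).p (fun ω => zx (ptr (Fam.sub F A₂ hP₂pos) r ω)) y, hA₂A, ?_,
    fun ω hω => hcl ω (hAb ω (hA₀a ω (hA₁A₀ ω (hA₂A₁ ω hω))).1), hncf₂, hgood, ?_⟩
  · -- the probability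
    have h1 : Real.exp (-C) ≤ 1 / 9 ^ m / 2 * (3 / 4) := by
      have h2 : Real.exp (-C) ≤ Real.exp (-(2 * m * Real.log 3 + 2 * Real.log 2)) := by
        refine Real.exp_le_exp.2 ?_
        rw [hC]
        linarith only [hC₁, hl2, hδ, hδ2, hm3]
      refine h2.trans ?_
      have e2 : Real.exp (-(2 * Real.log 2)) = 1 / 4 := by
        have : 2 * Real.log 2 = Real.log 4 := by
          have : (4 : ℝ) = 2 ^ 2 := by norm_num
          rw [this, Real.log_pow]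
          push_cast
          ring
        rw [this, Real.exp_neg, Real.exp_log (by norm_num), one_div]
      rw [neg_add, Real.exp_add, h9, e2]
      have : 0 < (1 : ℝ) / 9 ^ m := by positivity
      linarith only [this]
    calc Real.exp (-C) * Pe F.p A ≤ 1 / 9 ^ m / 2 * (3 / 4) * Pe F.p A :=
          mul_le_mul_of_nonneg_right h1 hPA0.le
      _ = 3 / 4 * (Pe F.p A / 9 ^ m / 2) := by ring
      _ ≤ 3 / 4 * Pe F.p A₁ := by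
          refine mul_le_mul_of_nonneg_left ?_ (by norm_num)
          exact (div_le_div_of_nonneg_right hP₀ (by norm_num)).trans hP₁
      _ ≤ _ := hP₂
  · intro y hy hgd
    have hsl := sl_lab (Fam.sub F A₂ hP₂pos) i₁ (e₃ := 4 * E) (c := c) zx zs cz cl z₀ μ₀ Λ hΛm
      hwL hPr hr
      (fun ω => hcl ω.1 (hAb ω.1 (hA₀a ω.1 (hA₁A₀ ω.1 (hA₂A₁ ω.1 ω.2))).1))
      (fun ω => hz ω.1 (hA₂A ω.1 ω.2)) (fun ω => hcz ω.1 (hA₂A ω.1 ω.2)) hZ₂ hμ0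
      (by linarith only [hδ, hδ2, hc1]) hlaw hδ hεpos.le hncf₂ (by positivity) (by
        intro ω _
        have hωA₁ := hA₂A₁ ω.1 ω.2
        refine nr_card hq₁ V W (w := W ⟨ω.1, hωA₁⟩) ?_ _ ?_
        · refine law_pos hq₁.nonneg W (ω := ⟨ω.1, hωA₁⟩) ?_
          exact div_pos (lt_of_le_of_ne (hp0 _) (Ne.symm (hA₀a ω.1 (hA₁A₀ ω.1 hωA₁)).2)) hP₁pos
        · intro v hv
          obtain ⟨ω', h1, h2⟩ := Finset.mem_image.1 hv
          have h3 := (Finset.mem_filter.1 h1).2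
          obtain ⟨h5, h6⟩ := (hA₂i ω'.1).1 ω'.2
          have h7 : V ⟨ω'.1, h5⟩ = v := by
            rw [hV]
            exact h2
          have h8 : W ⟨ω'.1, h5⟩ = W ⟨ω.1, hωA₁⟩ := by
            rw [hW]
            exact Prod.ext h3.2.1 h3.2.2
          rw [h7, h8] at h6
          exact h6) y hy hgd
    -- larger constants
    have hlogc : Real.log (4 * c) ≤ 4 * e + e' + s + C := by
      have h1 : Real.exp (-(s₁ + Real.log 2)) ≤ Pe F.p A₂ := by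
        rw [neg_add, Real.exp_add, Real.exp_neg (Real.log 2), Real.exp_log (by norm_num)]
        have : Pe F.p A₁ * 2⁻¹ ≤ Pe F.p A₂ := by linarith only [hP₂, hP₂pos]
        exact (mul_le_mul_of_nonneg_right hPs₁ (by norm_num)).trans this
      have h2 : -(s₁ + Real.log 2) ≤ Real.log (Pe F.p A₂) := by
        rw [Real.le_log_iff_exp_le hP₂pos]
        exact h1
      have h3 : Real.log (4 * c) = 2 * Real.log 2 + (4 * e + e' - Real.log (Pe F.p A₂)) := by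
        rw [Real.log_mul (by norm_num) (by linarith only [hδ, hδ2, hc1]), hc, Real.log_div (Real.exp_pos _).ne'
          hP₂pos.ne', Real.log_exp]
        have : (4 : ℝ) = 2 ^ 2 := by norm_num
        rw [this, Real.log_pow]
        push_cast
        ring
      rw [h3, hC]
      rw [hs₁] at h2
      linarith only [hC₁, hl2, hδ, hδ2, hm3, h2]
    have hEE : 4 * E ≤ 4 * (Real.log B + 2 * (m * (4 * e + e' + s + C) +
        C * (J / κ + γ + κ + 1 + ε * J)) + 1) := by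
      rw [hE]
      have h1 : m * (4 * e + e' + s₁) ≤ m * (4 * e + e' + s + C) := by
        refine mul_le_mul_of_nonneg_left ?_ hm0
        rw [hs₁, hC]
        linarith only [hC₁, hl2, hδ, hδ2, hm3]
      have h2 : C₁ * (J / κ + γ + κ + 1 + ε * J) ≤ C * (J / κ + γ + κ + 1 + ε * J) :=
        mul_le_mul_of_nonneg_right hCC₁ hR0
      linarith only [h1, h2]
    refine ⟨hsl.leaf, hsl.δ_pos, hsl.ε_nonneg, hsl.ncf, hsl.e₁_nonneg.trans hlogc,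
      hsl.e₃_nonneg.trans hEE, hsl.μ_nonneg, hsl.μ_sum, fun ω => ?_, fun G h1 h2 h3 => ?_⟩
    · refine (hsl.time ω).trans ?_
      refine div_le_div_of_nonneg_right ?_ (by positivity)
      exact mul_le_mul_of_nonneg_right (Real.exp_le_exp.2 hlogc) (hsl.μ_nonneg _)
    · exact (hsl.thin G h1 h2 h3).trans (Real.exp_le_exp.2 hEE)

/-- **From a closed label to leaves.** -/
theorem c1_thm (m : ℕ) : ∃ C : ℝ, 1 ≤ C ∧ ∀ (J : ℕ) (F : Fam m J) (i₁ : Fin m) (A : F.Ω → Prop)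
    (h w L P r κ γ B : ℕ) (δ ψ g e e' s : ℝ) (Z : Type)
    (zx : (Fin m → ℤ) × (ℕ × F.ζ) → Z)
    (zs : ((Fin m → ℝ) × (Fin m → ℝ)) × F.ζ × ℕ → Z) (cz : Z → ℕ × (Fin m → ℤ)),
    F.Tr → F.Tm e' → F.Rb e → Real.exp (-s) ≤ Pe F.p A → 0 ≤ e → 0 ≤ e' → 0 ≤ s →
    Ch F i₁ h A → Sp F (m - 2) ψ g A → 0 < δ → δ < 1 / 2 →
    1 / 2 ^ h + 2 * m * δ ≤ 1 / 2 ^ ⌊g * J⌋₊ →
    m.factorial * (2 : ℝ) ^ m ≤ δ ^ m * 2 ^ γ → 1 ≤ κ → C ≤ ψ * J →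
    w + L = P → P ≤ r → r ≤ J → 1 ≤ B →
    (∀ ω, A ω → zx (ptr F r ω) = zs (slam F w ω)) →
    (∀ ω, A ω → cz (zx (ptr F r ω)) = (F.T1 w ω, F.X w ω)) →
    (∀ ω, A ω → (open Classical in ((univ.filter (fun ω' => A ω' ∧
      zx (ptr F r ω') = zx (ptr F r ω) ∧ F.T ω' = F.T ω ∧
      ∀ j ≠ i₁, F.X r ω' j = F.X r ω j)).image (fun ω' => F.X P ω' i₁)).card) ≤ B) →
    ∃ (A' : F.Ω → Prop) (hA' : 0 < Pe F.p A')
      (cl : ((Fin m → ℝ) × (Fin m → ℝ)) × F.ζ × ℕ → Fin m → ℤ)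
      (μ : Z → ((Fin m → ℝ) × (Fin m → ℝ)) × F.ζ × ℕ → ℝ) (Gd : Z → Prop),
      Sub A' A ∧ Real.exp (-C) * Pe F.p A ≤ Pe F.p A' ∧
      (∀ ω, A' ω → F.X w ω = cl (slam F w ω)) ∧
      3 / 4 ≤ Pe (Fam.sub F A' hA').p (fun ω => Gd (zx (ptr (Fam.sub F A' hA') r ω))) ∧
      ∀ y, law (Fam.sub F A' hA').p (fun ω => zx (ptr (Fam.sub F A' hA') r ω)) y ≠ 0 → Gd y →
        Pool.KBX.SL L 2 δ (Real.exp (-(ψ * J / 4))) (4 * e + e' + s + C)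
          (4 * (Real.log B + 2 * (m * (4 * e + e' + s + C) +
            C * (J / κ + γ + κ + 1 + Real.exp (-(ψ * J / 4)) * J)) + 1))
          (Pool.Agent.H49.Ent.cond (Fam.sub F A' hA').p
            (fun ω => zx (ptr (Fam.sub F A' hA') r ω)) y)
          (slam (Fam.sub F A' hA') w) (trp (Fam.sub F A' hA') P) (pT L) (ppos L (chI i₁))
          (lA w (chI i₁) cl) (lB (chI i₁)) (μ y) := by
  obtain ⟨C, hC, h⟩ := c1n_thm m
  refine ⟨C, hC, ?_⟩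
  intro J F i₁ A h' w L P r κ γ B δ ψ g e e' s Z zx zs cz a1 a2 a3 a4 a5 a6 a7 a8 a9 a10 a11 a12 a13
    a14 a15 a16 a17 a18 a19 a20 a21 a22
  obtain ⟨A', hA', cl, μ, Gd, b1, b2, b3, -, b4, b5⟩ := h J F i₁ A h' w L P r κ γ B δ ψ g e e' s Z
    zx zs cz a1 a2 a3 a4 a5 a6 a7 a8 a9 a10 a11 a12 a13 a14 a15 a16 a17 a18 a19 a20 a21 a22
  exact ⟨A', hA', cl, μ, Gd, b1, b2, b3, b4, b5⟩

end Pool.STPA
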