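import Pool.Agent.H37.STPA.Reg2
import Pool.Agent.H81.KBX.JUN
import Pool.Agent.H99.FLF.TRU

/-!
# Fans of point events, fullness of the base digits
-/

set_option autoImplicit false

namespace Pool.STPA

open Finset Real
open Pool.Agent.H49.Ent Pool.Agent.H32.Dense Pool.STK Pool.KA Pool.KSAT Pool.K2S Pool.KS3 Pool.FLF
open Pool.KAL

variable {m J : ℕ}

open Classical in
/-- Sums over the restriction to an event. -/
lemma sum_sp {Ω : Type} [Fintype Ω] {p : Ω → ℝ} {A : Ω → Prop} (f : Ω → Prop)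
    (g : {ω // A ω} → ℝ) (hg : ∀ ω, f ω.1 → g ω = sp p A ω) (hg' : ∀ ω, ¬ f ω.1 → g ω = 0) :
    ∑ ω : {ω // A ω}, g ω = Pe p (fun ω => A ω ∧ f ω) / Pe p A := by
  have mg : Marg (sp p A) (Pool.Agent.H49.Ent.cond p A True) (fun ω : {ω // A ω} => ω.1) :=
    sp_marg A
  have a1 := mg.ex (fun ω => if f ω then (1 : ℝ) else 0)
  have a2 : ∑ ω : {ω // A ω}, g ω =
      Ex (sp p A) (fun ω : {ω // A ω} => if f ω.1 then (1 : ℝ) else 0) := by
    unfold Ex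
    refine Finset.sum_congr rfl fun ω _ => ?_
    beta_reduce
    by_cases h : f ω.1
    · rw [if_pos h, hg ω h, mul_one]
    · rw [if_neg h, hg' ω h, mul_zero]
  rw [a2, a1, Pe_eq (p := p) (fun ω => A ω ∧ f ω), Finset.sum_div]
  unfold Ex
  refine Finset.sum_congr rfl fun ω _ => ?_
  have hlt : law p A True = Pe p A := rfl
  unfold Pool.Agent.H49.Ent.cond
  rw [hlt]
  beta_reduce
  by_cases h1 : A ω
  · by_cases h2 : f ω
    · rw [if_pos h2, if_pos (by simpa using h1), if_pos ⟨h1, h2⟩, mul_one]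
    · rw [if_neg h2, if_neg (fun h : A ω ∧ f ω => h2 h.2), zero_div, mul_zero]
  · rw [if_neg (by simpa using h1 : ¬ (A ω = True)), if_neg (fun h : A ω ∧ f ω => h1 h.1),
      zero_div, zero_mul]

/-- **The fans of a point event.** -/
theorem ncf_sp {n : ℕ} {Ω Λ Ξ : Type} [Fintype Ω] {p : Ω → ℝ} (hp : IsLaw p) {A A' : Ω → Prop}
    (hA : 0 < Pe p A) (hA' : 0 < Pe p A') {lam : Ω → Λ} {x : Ω → Ξ} {S : Ξ → Prop}
    (hS : ∀ ω, A' ω ↔ A ω ∧ S (x ω)) {B : Λ → Option (Fin n) → ℝ} {δ ε : ℝ} {e : Ξ → ℝ}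
    (he : ∀ ξ, S ξ → e ξ ≤ ε)
    (h : (open Classical in NCF (sp p A) (fun ω : {ω // A ω} => lam ω.1) (fun ω => x ω.1) B δ e)) :
    (open Classical in
      NCF (sp p A') (fun ω : {ω // A' ω} => lam ω.1) (fun ω => x ω.1) B δ (fun _ => ε)) := by
  classical
  intro ω hω u hu
  have hωA := ((hS ω.1).1 ω.2).1
  have hωS := ((hS ω.1).1 ω.2).2
  have hpω : 0 < p ω.1 := by
    have h1 : sp p A' ω = p ω.1 / Pe p A' := rfl
    rw [h1] at hω
    by_contra hcon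
    have h2 : p ω.1 = 0 := le_antisymm (not_lt.1 hcon) (hp.nonneg _)
    rw [h2, zero_div] at hω
    exact lt_irrefl _ hω
  have h1 := h ⟨ω.1, hωA⟩ (div_pos hpω hA) u hu
  have h2 : (∑ ω' : {ω // A ω}, if x ω'.1 = x ω.1 ∧ |∑ i, u i * B (lam ω'.1) (some i)| ≤ δ
      then sp p A ω' else 0) = Pe p (fun ω' => A ω' ∧ (x ω' = x ω.1 ∧
        |∑ i, u i * B (lam ω') (some i)| ≤ δ)) / Pe p A :=
    sum_sp (fun ω' => x ω' = x ω.1 ∧ |∑ i, u i * B (lam ω') (some i)| ≤ δ) _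
      (fun ω' h => if_pos h) (fun ω' h => if_neg h)
  have h3 : law (sp p A) (fun ω' : {ω // A ω} => x ω'.1) (x ω.1) =
      Pe p (fun ω' => A ω' ∧ x ω' = x ω.1) / Pe p A := sum_sp (fun ω' => x ω' = x ω.1) _
      (fun ω' h => if_pos h) (fun ω' h => if_neg h)
  have h4 : (∑ ω' : {ω // A' ω}, if x ω'.1 = x ω.1 ∧ |∑ i, u i * B (lam ω'.1) (some i)| ≤ δ
      then sp p A' ω' else 0) = Pe p (fun ω' => A' ω' ∧ (x ω' = x ω.1 ∧
        |∑ i, u i * B (lam ω') (some i)| ≤ δ)) / Pe p A' :=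
    sum_sp (fun ω' => x ω' = x ω.1 ∧ |∑ i, u i * B (lam ω') (some i)| ≤ δ) _
      (fun ω' h => if_pos h) (fun ω' h => if_neg h)
  have h5 : law (sp p A') (fun ω' : {ω // A' ω} => x ω'.1) (x ω.1) =
      Pe p (fun ω' => A' ω' ∧ x ω' = x ω.1) / Pe p A' := sum_sp (fun ω' => x ω' = x ω.1) _
      (fun ω' h => if_pos h) (fun ω' h => if_neg h)
  have e1 : ∀ f : Ω → Prop, Pe p (fun ω' => A' ω' ∧ (x ω' = x ω.1 ∧ f ω')) =
      Pe p (fun ω' => A ω' ∧ (x ω' = x ω.1 ∧ f ω')) := by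
    intro f
    rw [Pe_eq, Pe_eq]
    refine Finset.sum_congr rfl fun ω' _ => ?_
    by_cases hx : x ω' = x ω.1
    · have : A' ω' ↔ A ω' := by
        rw [hS ω', hx]
        exact ⟨fun h => h.1, fun h => ⟨h, hωS⟩⟩
      by_cases ha : A ω'
      · have ha' := this.2 ha
        by_cases hf : f ω'
        · rw [if_pos ⟨ha', hx, hf⟩, if_pos ⟨ha, hx, hf⟩]
        · rw [if_neg (fun h => hf h.2.2), if_neg (fun h => hf h.2.2)]
      · rw [if_neg (fun h => ha (this.1 h.1)), if_neg (fun h => ha h.1)]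
    · rw [if_neg (fun h => hx h.2.1), if_neg (fun h => hx h.2.1)]
  have e2 : Pe p (fun ω' => A' ω' ∧ x ω' = x ω.1) = Pe p (fun ω' => A ω' ∧ x ω' = x ω.1) := by
    have := e1 (fun _ => True)
    simpa using this
  change (∑ ω' : {ω // A' ω}, if x ω'.1 = x ω.1 ∧ |∑ i, u i * B (lam ω'.1) (some i)| ≤ δ
      then sp p A' ω' else 0) ≤ ε * law (sp p A') (fun ω' : {ω // A' ω} => x ω'.1) (x ω.1)
  rw [h4, h5, e1 (fun ω' => |∑ i, u i * B (lam ω') (some i)| ≤ δ), e2]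
  have h6 : Pe p (fun ω' => A ω' ∧ (x ω' = x ω.1 ∧
      |∑ i, u i * B (lam ω') (some i)| ≤ δ)) / Pe p A ≤
      e (x ω.1) * (Pe p (fun ω' => A ω' ∧ x ω' = x ω.1) / Pe p A) := by
    rw [← h2, ← h3]
    exact h1
  have h7 : Pe p (fun ω' => A ω' ∧ (x ω' = x ω.1 ∧
      |∑ i, u i * B (lam ω') (some i)| ≤ δ)) ≤
      e (x ω.1) * Pe p (fun ω' => A ω' ∧ x ω' = x ω.1) := by
    rw [mul_div_assoc', div_le_div_iff_of_pos_right hA] at h6
    exact h6
  rw [mul_div_assoc']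
  refine div_le_div_of_nonneg_right (h7.trans ?_) hA'.le
  exact mul_le_mul_of_nonneg_right (he _ hωS) (Pe_nonneg hp _)

/-- **Fullness of the base digits** of a window, given a function `c` of the exact point which is
also a function of the line with the window. -/
theorem full_c (m : ℕ) : ∃ C : ℝ, 0 ≤ C ∧ ∀ (J : ℕ) (F : Fam m J) (i₁ : Fin m) (w L r κ γ : ℕ)
    (δ ε e₁ : ℝ) (Γ : Type) (c : F.Ω → Γ) (g : (Fin m → ℤ) × (ℕ × F.ζ) → Γ)
    (cl : ((Fin m → ℝ) × (Fin m → ℝ)) × F.ζ × ℕ → Fin m → ℤ),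
    w + L = r → r ≤ J → (∀ ω, F.X w ω = cl (slam F w ω)) → (∀ ω, c ω = g (Fam.pt F ω)) →
    Det F.p (slam F w) c → F.Tm e₁ → 0 < δ → 0 ≤ ε →
    NCF F.p (slam F w) (Fam.pt F) (lB (chI i₁)) δ (fun _ => ε) →
    m.factorial * (2 : ℝ) ^ m ≤ δ ^ m * 2 ^ γ → 1 ≤ κ →
    m * (L * Real.log 2 - e₁) ≤ CH F.p (fun ω => bas (ppos L (chI i₁)) (trp F r ω)) c +
      C * (L / κ + γ + κ + 1 + ε * L) := by
  classical
  obtain ⟨C, hC, h⟩ := mkc_thm m 2 (by norm_num)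
  refine ⟨C, hC, ?_⟩
  intro J F i₁ w L r κ γ δ ε e₁ Γ c g cl hwL hr hcl hg hdet hTm hδ hε hn hγ hκ
  have hp := F.isLaw
  have hp0 := hp.nonneg
  have hlf := leafr F hwL hr (chI i₁) cl hcl
  obtain ⟨φ, hφ⟩ := trp_coarse F hr
  have hM : ((2 ^ L : ℕ) : ℝ) = 2 ^ L := by push_cast; rfl
  obtain ⟨f, hf⟩ : ∃ f : (Fin m → ℤ) × (ℕ × F.ζ) → ((Fin m → ℤ) × (ℕ × F.ζ)) × Γ,
      f = fun ξ => (φ ξ, g ξ) := ⟨_, rfl⟩
  have hz : (fun ω => (trp F r ω, c ω)) = fun ω => f (Fam.pt F ω) := by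
    funext ω
    rw [hf]
    exact Prod.ext (hφ ω) (hg ω)
  have hn' : NCF F.p (slam F w) (fun ω => (trp F r ω, c ω)) (lB (chI i₁)) δ (fun _ => ε) := by
    rw [hz]
    exact Pool.Agent.H81.KBX.ncf_coarse hp0 hε hn f
  have h1 := h F.Ω Γ (((Fin m → ℝ) × (Fin m → ℝ)) × F.ζ × ℕ) (((Fin m → ℤ) × (ℕ × F.ζ)) × Γ)
    F.p L κ γ δ ε (fun ω => (trp F r ω, c ω)) (fun _ => ε)
    (fun ω => bas (ppos L (chI i₁)) (trp F r ω)) (fun ω => pT L (trp F r ω)) c (slam F w)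
    (fun l i => lA w (chI i₁) cl l (some i)) (fun l i => lB (chI i₁) l (some i)) hp hlf.T_lt
    (by
      intro ω ω' _ _ hh
      have := (Prod.ext_iff.mp hh).1
      simp only at this ⊢
      rw [this])
    (by
      intro ω ω' _ _ hh
      have := (Prod.ext_iff.mp hh).1
      simp only at this ⊢
      rw [this])
    (fun ω ω' _ _ hh => (Prod.ext_iff.mp hh).2)
    (by
      intro ω _ i
      have := hlf.near ω (some i)
      rw [hM] at this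
      exact this)
    (fun ω i => hlf.B_le ω (some i)) hδ (fun _ => hε) (le_of_eq (Ex_const hp.sum_one ε)) hn' hγ hκ
  have h2 := time_fullr F hwL hr hTm
  have h3 : CH F.p (fun ω => pT L (trp F r ω)) (fun ω => (slam F w ω, c ω)) =
      CH F.p (fun ω => pT L (trp F r ω)) (slam F w) := by
    refine CH_congr hp0 (fun ω ω' _ _ h => (Prod.ext_iff.mp h).1)
      (fun ω ω' _ _ h => (Prod.ext_iff.mp h).1) (fun ω ω' _ _ h => (Prod.ext_iff.mp h).1) ?_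
    intro ω ω' a b h
    exact Prod.ext h (hdet ω ω' a b h)
  rw [h3] at h1
  have hm0 : (0 : ℝ) ≤ m := Nat.cast_nonneg m
  have h4 : (m : ℝ) * (L * Real.log 2 - e₁) ≤ m * CH F.p (fun ω => pT L (trp F r ω)) (slam F w) :=
    mul_le_mul_of_nonneg_left (by linarith) hm0
  exact h4.trans h1

end Pool.STPA
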