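import Pool.Agent.H99.FLF.EXL
import Pool.Agent.H99.FLF.NCH

/-!
# The law of line and time of a regular family

In a regular family with a small time deficit the law of the pair (line, time) is dominated by
a law of lines times the uniform law of times.
-/

set_option autoImplicit false

namespace Pool.STPA

open Finset Real
open Pool.Agent.H49.Ent Pool.Agent.H32.Dense Pool.STK Pool.KA Pool.KSAT Pool.K2S

variable {m J : ℕ}

/-- A lower bound of the entropy. -/
lemma H_ge {Ω S : Type} [Fintype Ω] {p : Ω → ℝ} (hp : IsLaw p) (f : Ω → S) {h : ℝ}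
    (hb : ∀ s, law p f s ≤ Real.exp (-h)) : h ≤ H p f := by
  have h0 := hp.nonneg
  have h1 : ∑ ω, p ω * Real.log (law p f (f ω)) ≤ ∑ ω, p ω * (-h) := by
    refine Finset.sum_le_sum fun ω _ => ?_
    rcases (h0 ω).eq_or_lt with h2 | h2
    · rw [← h2, zero_mul, zero_mul]
    · refine mul_le_mul_of_nonneg_left ?_ h2.le
      rw [Real.log_le_iff_le_exp (law_pos h0 f h2)]
      exact hb _
  rw [← Finset.sum_mul, hp.sum_one, one_mul] at h1
  unfold H
  linarith

/-- An upper bound of the entropy. -/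
lemma H_le_card {Ω S : Type} [Fintype Ω] {p : Ω → ℝ} (hp : IsLaw p) (f : Ω → S) {h : ℝ}
    (hc : (open Classical in
      (((Finset.univ.filter (fun ω => p ω ≠ 0)).image f).card : ℝ) ≤ Real.exp h)) :
    H p f ≤ h := by
  classical
  have h0 := hp.nonneg
  obtain ⟨ω₀, hω₀⟩ : ∃ ω, 0 < p ω := by
    by_contra hcon
    push Not at hcon
    have : ∑ ω, p ω ≤ 0 := Finset.sum_nonpos fun ω _ => hcon ω
    rw [hp.sum_one] at this
    linarith
  have hmem : ∀ ω, 0 < p ω → f ω ∈ (Finset.univ.filter (fun ω => p ω ≠ 0)).image f :=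
    fun ω hω => Finset.mem_image_of_mem f (by simp [hω.ne'])
  have h1 := H_le_log_card h0 hp.sum_one f ((Finset.univ.filter (fun ω => p ω ≠ 0)).image f) hmem
  refine h1.trans ?_
  have hpos : (0 : ℝ) < ((Finset.univ.filter (fun ω => p ω ≠ 0)).image f).card := by
    have := Finset.card_pos.2 ⟨_, hmem ω₀ hω₀⟩
    exact_mod_cast this
  rw [Real.log_le_iff_le_exp hpos]
  exact hc

/-- **The law of line and time.** -/
theorem reg_law (F : Fam m J) {e e' : ℝ} (hTr : F.Tr) (hTm : F.Tm e') (hRb : F.Rb e) :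
    ∃ μ : ((Fin m → ℝ) × (Fin m → ℝ)) → ℝ, (∀ l, 0 ≤ μ l) ∧
      (∀ S : Finset ((Fin m → ℝ) × (Fin m → ℝ)), ∑ l ∈ S, μ l ≤ 1) ∧
      ∀ l T, law F.p (fun ω => (F.l ω, F.T ω)) (l, T) ≤ Real.exp (4 * e + e') * μ l / 2 ^ J := by
  classical
  have hp := F.isLaw
  have h0 := hp.nonneg
  obtain ⟨z₀, hz₀⟩ := hTr
  obtain ⟨-, -, -, ⟨h₁, hc₁, hl₁⟩, ⟨h₂, hc₂, hl₂⟩⟩ := hRb
  set S₂ := (Finset.univ.filter (fun ω => F.p ω ≠ 0)).image F.l with hS₂
  obtain ⟨ω₀, hω₀⟩ : ∃ ω, 0 < F.p ω := by
    by_contra hcon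
    push Not at hcon
    have : ∑ ω, F.p ω ≤ 0 := Finset.sum_nonpos fun ω _ => hcon ω
    rw [hp.sum_one] at this
    linarith
  have hmem : ∀ ω, 0 < F.p ω → F.l ω ∈ S₂ :=
    fun ω hω => Finset.mem_image_of_mem F.l (by simp [hω.ne'])
  have hcard : (0 : ℝ) < S₂.card := by
    have := Finset.card_pos.2 ⟨_, hmem ω₀ hω₀⟩
    exact_mod_cast this
  have hc₂' : (S₂.card : ℝ) ≤ Real.exp (h₂ + e) := by
    refine le_trans (le_of_eq ?_) hc₂
    rw [hS₂]
    exact congrArg (fun s : Finset ((Fin m → ℝ) × (Fin m → ℝ)) => (s.card : ℝ))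
      (by ext x; simp only [Finset.mem_image])
  have a1 : H F.p (fun ω => (F.l ω, F.T ω)) ≤ h₁ + e := by
    refine H_le_card hp _ ?_
    exact hc₁
  have a2 : h₂ - e ≤ H F.p F.l := H_ge hp _ hl₂
  have a3 : CH F.p F.T (fun ω => (F.l ω, F.Z ω)) = CH F.p F.T F.l := by
    refine CH_congr h0 (fun ω ω' _ _ h => (Prod.ext_iff.mp h).1)
      (fun ω ω' _ _ h => (Prod.ext_iff.mp h).1) ?_ ?_
    · intro ω ω' _ _ h
      exact (Prod.ext_iff.mp h).1
    · intro ω ω' h1 h2 h
      exact Prod.ext h ((hz₀ ω h1.ne').trans (hz₀ ω' h2.ne').symm)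
  have a4 : H F.p (fun ω => (F.l ω, F.T ω)) = H F.p F.l + CH F.p F.T F.l := by
    unfold CH
    have : H F.p (fun ω => (F.l ω, F.T ω)) = H F.p (fun ω => (F.T ω, F.l ω)) := by
      refine H_congr h0 ?_ ?_ <;>
      · intro ω ω' _ _ h
        have := Prod.ext_iff.mp h
        exact Prod.ext this.2 this.1
    rw [this]
    ring
  have a5 : (J : ℝ) * Real.log 2 - e' ≤ CH F.p F.T F.l := by
    rw [← a3]
    exact hTm
  have a6 : h₂ + J * Real.log 2 - 2 * e - e' ≤ h₁ := by linarith
  refine ⟨fun l => if l ∈ S₂ then 1 / S₂.card else 0, fun l => ?_, fun S => ?_, fun l T => ?_⟩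
  · simp only
    split_ifs <;> positivity
  · rw [← Finset.sum_filter, Finset.sum_const, nsmul_eq_mul, mul_one_div, div_le_one hcard]
    exact_mod_cast Finset.card_le_card (fun l hl => (Finset.mem_filter.1 hl).2)
  · simp only
    by_cases hl : l ∈ S₂
    · rw [if_pos hl]
      refine (hl₁ _).trans ?_
      have e1 : (1 : ℝ) / Real.exp (h₂ + e) ≤ 1 / S₂.card := by
        exact one_div_le_one_div_of_le hcard hc₂'
      have e2 : (2 : ℝ) ^ J = Real.exp (J * Real.log 2) := by
        rw [mul_comm, Real.exp_mul, Real.exp_log (by norm_num)]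
        simp
      calc Real.exp (-(h₁ - e)) ≤ Real.exp (4 * e + e') * (1 / Real.exp (h₂ + e)) /
            Real.exp (J * Real.log 2) := by
            rw [one_div, ← Real.exp_neg, ← Real.exp_add, ← Real.exp_sub]
            refine Real.exp_le_exp.2 ?_
            linarith
        _ ≤ Real.exp (4 * e + e') * (1 / S₂.card) / Real.exp (J * Real.log 2) := by
            refine div_le_div_of_nonneg_right ?_ (Real.exp_pos _).le
            exact mul_le_mul_of_nonneg_left e1 (Real.exp_pos _).le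
        _ = _ := by rw [e2]
    · rw [if_neg hl]
      have : law F.p (fun ω => (F.l ω, F.T ω)) (l, T) = 0 := by
        unfold law
        refine Finset.sum_eq_zero fun ω _ => ?_
        split_ifs with h
        · by_contra hne
          have h1 : 0 < F.p ω := lt_of_le_of_ne (h0 ω) (Ne.symm hne)
          have h2 : F.l ω = l := (Prod.ext_iff.mp h).1
          exact hl (h2 ▸ hmem ω h1)
        · rfl
      rw [this]
      simp

/-- The time deficit of a law which is dominated by a law of lines times the uniform law. -/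
theorem time_of_law {Ω Λ : Type} [Fintype Ω] {q : Ω → ℝ} (hq : IsLaw q) (l : Ω → Λ) (T : Ω → ℕ)
    {μ : Λ → ℝ} (hμ : ∀ l, 0 ≤ μ l) (hs : ∀ S : Finset Λ, ∑ l ∈ S, μ l ≤ 1) {η N : ℝ}
    (hN : 0 < N) (hb : ∀ ω, law q (fun ω => (l ω, T ω)) (l ω, T ω) ≤
      Real.exp η * μ (l ω) / N) :
    Real.log N - η ≤ CH q T l := by
  classical
  have h0 := hq.nonneg
  have hpos : ∀ ω, 0 < q ω → 0 < μ (l ω) := by
    intro ω hω
    have h1 := (law_pos h0 (fun ω => (l ω, T ω)) hω).trans_le (hb ω)
    rcases (hμ (l ω)).eq_or_lt with h2 | h2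
    · rw [← h2, mul_zero, zero_div] at h1
      exact absurd h1 (lt_irrefl _)
    · exact h2
  have a1 : H q l ≤ Ex q (fun ω => -Real.log (μ (l ω))) := by
    have h1 := CH_le_cross h0 hq.sum_one l (fun _ => ()) (fun _ x => μ x)
      (fun ω hω => hpos ω hω) (fun _ x => hμ x) (fun ω _ S => hs S)
    have h2 : CH q l (fun _ => ()) = H q l := by
      unfold CH
      rw [H_const hq.sum_one]
      rw [H_congr h0 (X := fun ω => (l ω, ())) (Y := l)]
      · ring
      · intro ω ω' _ _ h
        exact (Prod.ext_iff.mp h).1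
      · intro ω ω' _ _ h
        exact Prod.ext h rfl
    rw [← h2]
    exact h1
  have a2 : Ex q (fun ω => -Real.log (μ (l ω))) + (Real.log N - η) ≤
      H q (fun ω => (T ω, l ω)) := by
    have h2 : H q (fun ω => (T ω, l ω)) = H q (fun ω => (l ω, T ω)) := by
      refine H_congr h0 ?_ ?_ <;>
      · intro ω ω' _ _ h
        have := Prod.ext_iff.mp h
        exact Prod.ext this.2 this.1
    rw [h2]
    have h3 : Ex q (fun ω => -Real.log (μ (l ω))) + (Real.log N - η) =
        ∑ ω, q ω * (-Real.log (μ (l ω)) + (Real.log N - η)) := by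
      have h4 : Real.log N - η = ∑ ω, q ω * (Real.log N - η) := by
        rw [← Finset.sum_mul, hq.sum_one, one_mul]
      unfold Ex
      rw [h4, ← Finset.sum_add_distrib]
      refine Finset.sum_congr rfl fun ω _ => ?_
      rw [← h4]
      ring
    rw [h3]
    unfold H
    rw [← Finset.sum_neg_distrib]
    refine Finset.sum_le_sum fun ω _ => ?_
    rcases (h0 ω).eq_or_lt with h4 | h4
    · rw [← h4]
      simp
    · rw [← mul_neg]
      refine mul_le_mul_of_nonneg_left ?_ h4.le
      have h5 := Real.log_le_log (law_pos h0 (fun ω => (l ω, T ω)) h4) (hb ω)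
      rw [Real.log_div (mul_pos (Real.exp_pos _) (hpos ω h4)).ne' hN.ne',
        Real.log_mul (Real.exp_pos _).ne' (hpos ω h4).ne', Real.log_exp] at h5
      linarith
  unfold CH
  linarith

end Pool.STPA
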