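import Pool.Agent.H37.STPA.Aux1
import Pool.Agent.H84.KBOX.Stmts

/-!
# The leaves of the values of a label

A family with a label, in which the label determines with the base coordinates of precision `P` the
passive coordinate up to few values. For most values of the label the conditional law is a leaf
in the sense of `Pool.KBX.SL`.
-/

set_option autoImplicit false

namespace Pool.STPA

open Finset Real
open Pool.Agent.H49.Ent Pool.Agent.H32.Dense Pool.STK Pool.KA Pool.KSAT Pool.K2S Pool.KS3 Pool.FLF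
open Pool.KAL Pool.PB

variable {m J : ℕ}

/-- The weight of a line with a window. -/
noncomputable def Wl {ζ : Type} (w : ℕ) (μ₀ : ((Fin m → ℝ) × (Fin m → ℝ)) → ℝ)
    (l : ((Fin m → ℝ) × (Fin m → ℝ)) × ζ × ℕ) : ℝ := μ₀ l.1 / 2 ^ w

open Classical in
/-- The weight of the lines with windows with a given value of the label. -/
noncomputable def Ml {ζ Z : Type} (w : ℕ) (μ₀ : ((Fin m → ℝ) × (Fin m → ℝ)) → ℝ)
    (zs : ((Fin m → ℝ) × (Fin m → ℝ)) × ζ × ℕ → Z)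
    (Λ : Finset (((Fin m → ℝ) × (Fin m → ℝ)) × ζ × ℕ)) (y : Z) : ℝ :=
  ∑ l ∈ Λ.filter (fun l => zs l = y), Wl w μ₀ l

open Classical in
/-- The law of the lines with windows with a given value of the label. -/
noncomputable def Mu {ζ Z : Type} (w : ℕ) (μ₀ : ((Fin m → ℝ) × (Fin m → ℝ)) → ℝ)
    (zs : ((Fin m → ℝ) × (Fin m → ℝ)) × ζ × ℕ → Z)
    (Λ : Finset (((Fin m → ℝ) × (Fin m → ℝ)) × ζ × ℕ)) (y : Z)
    (l : ((Fin m → ℝ) × (Fin m → ℝ)) × ζ × ℕ) : ℝ :=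
  if l ∈ Λ ∧ zs l = y then Wl w μ₀ l / Ml w μ₀ zs Λ y else 0

section wt

variable {ζ Z : Type} {w : ℕ} {μ₀ : ((Fin m → ℝ) × (Fin m → ℝ)) → ℝ}
  {zs : ((Fin m → ℝ) × (Fin m → ℝ)) × ζ × ℕ → Z}
  {Λ : Finset (((Fin m → ℝ) × (Fin m → ℝ)) × ζ × ℕ)}

lemma Wl_nonneg (h : ∀ l, 0 ≤ μ₀ l) (l : ((Fin m → ℝ) × (Fin m → ℝ)) × ζ × ℕ) :
    0 ≤ Wl w μ₀ l := div_nonneg (h _) (by positivity)

lemma Ml_nonneg (h : ∀ l, 0 ≤ μ₀ l) (y : Z) : 0 ≤ Ml w μ₀ zs Λ y :=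
  Finset.sum_nonneg fun l _ => Wl_nonneg h l

lemma Mu_nonneg (h : ∀ l, 0 ≤ μ₀ l) (y : Z) (l : ((Fin m → ℝ) × (Fin m → ℝ)) × ζ × ℕ) :
    0 ≤ Mu w μ₀ zs Λ y l := by
  unfold Mu
  split_ifs
  · exact div_nonneg (Wl_nonneg h l) (Ml_nonneg h y)
  · exact le_rfl

lemma Mu_sum (h : ∀ l, 0 ≤ μ₀ l) (y : Z)
    (G : Finset (((Fin m → ℝ) × (Fin m → ℝ)) × ζ × ℕ)) : ∑ l ∈ G, Mu w μ₀ zs Λ y l ≤ 1 := by
  classical
  have h1 : ∑ l ∈ G, Mu w μ₀ zs Λ y l ≤ Ml w μ₀ zs Λ y / Ml w μ₀ zs Λ y := by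
    have h2 : ∑ l ∈ G, Mu w μ₀ zs Λ y l =
        ∑ l ∈ G.filter (fun l => l ∈ Λ ∧ zs l = y), Wl w μ₀ l / Ml w μ₀ zs Λ y := by
      rw [Finset.sum_filter]
      refine Finset.sum_congr rfl fun l _ => ?_
      unfold Mu
      by_cases h3 : l ∈ Λ ∧ zs l = y
      · rw [if_pos h3]
      · rw [if_neg h3]
    rw [h2, ← Finset.sum_div]
    refine div_le_div_of_nonneg_right ?_ (Ml_nonneg h y)
    unfold Ml
    refine Finset.sum_le_sum_of_subset_of_nonneg ?_ fun l _ _ => Wl_nonneg h l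
    intro l hl
    rw [Finset.mem_filter] at hl ⊢
    exact hl.2
  exact h1.trans (div_self_le_one _)

/-- The total weight. -/
lemma Ml_total (h : ∀ l, 0 ≤ μ₀ l)
    (h1 : ∀ S : Finset ((Fin m → ℝ) × (Fin m → ℝ)), ∑ l ∈ S, μ₀ l ≤ 1) {z₀ : ζ}
    (hΛ : ∀ l ∈ Λ, l.2.1 = z₀ ∧ l.2.2 < 2 ^ w) (S : Finset Z) :
    ∑ y ∈ S, Ml w μ₀ zs Λ y ≤ 1 := by
  classical
  have h2 : ∑ y ∈ S, Ml w μ₀ zs Λ y ≤ ∑ l ∈ Λ, Wl w μ₀ l := by
    unfold Ml
    have h3 : ∀ y, (∑ l ∈ Λ.filter (fun l => zs l = y), Wl w μ₀ l) =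
        ∑ l ∈ Λ, if zs l = y then Wl w μ₀ l else 0 := fun y => by
      rw [Finset.sum_filter]
    have h4 : ∑ y ∈ S, (∑ l ∈ Λ.filter (fun l => zs l = y), Wl w μ₀ l) =
        ∑ l ∈ Λ, ∑ y ∈ S, (if zs l = y then Wl w μ₀ l else 0) := by
      rw [Finset.sum_comm]
      refine Finset.sum_congr rfl fun y _ => ?_
      rw [Finset.sum_filter]
    refine le_trans (le_of_eq ?_) (Finset.sum_le_sum (f := fun l => ∑ y ∈ S,
      (if zs l = y then Wl w μ₀ l else 0)) fun l _ => ?_)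
    · rw [← h4]
    · rw [Finset.sum_ite_eq]
      split_ifs
      exacts [le_rfl, Wl_nonneg h l]
  refine h2.trans ?_
  have h5 : ∑ l ∈ Λ, Wl w μ₀ l ≤ ∑ x ∈ (Λ.image fun l => l.1) ×ˢ range (2 ^ w),
      μ₀ x.1 / 2 ^ w := by
    have h6 : ∑ l ∈ Λ, Wl w μ₀ l = ∑ x ∈ Λ.image (fun l => (l.1, l.2.2)), μ₀ x.1 / 2 ^ w := by
      rw [Finset.sum_image]
      · rfl
      · intro l hl l' hl' hh
        have h7 := Prod.ext_iff.mp hh
        exact Prod.ext h7.1 (Prod.ext ((hΛ l hl).1.trans (hΛ l' hl').1.symm) h7.2)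
    rw [h6]
    refine Finset.sum_le_sum_of_subset_of_nonneg ?_ fun x _ _ => div_nonneg (h _) (by positivity)
    intro x hx
    obtain ⟨l, hl, rfl⟩ := Finset.mem_image.1 hx
    rw [Finset.mem_product]
    exact ⟨Finset.mem_image_of_mem _ hl, Finset.mem_range.2 (hΛ l hl).2⟩
  refine h5.trans ?_
  rw [Finset.sum_product]
  simp only [Finset.sum_const, Finset.card_range, nsmul_eq_mul]
  push_cast
  have h8 : ∀ x : (Fin m → ℝ) × (Fin m → ℝ), (2 : ℝ) ^ w * (μ₀ x / 2 ^ w) = μ₀ x := fun x => by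
    field_simp
  simp only [h8]
  exact h1 _

end wt

end Pool.STPA
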