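import Pool.Agent.H37.STPA.SlLab

/-!
# The leaves of the values of a label, part 2
-/

set_option autoImplicit false

namespace Pool.STPA

open Finset Real
open Pool.Agent.H49.Ent Pool.Agent.H32.Dense Pool.STK Pool.KA Pool.KSAT Pool.K2S Pool.KS3 Pool.FLF
open Pool.KAL Pool.PB

variable {m J : ℕ}

/-- Comparison of laws. -/
lemma law_le_law {Ω S T : Type} [Fintype Ω] {p : Ω → ℝ} (hp : ∀ ω, 0 ≤ p ω) {X : Ω → S}
    {Y : Ω → T} {s : S} {t : T} (h : ∀ ω, X ω = s → Y ω = t) : law p X s ≤ law p Y t := by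
  classical
  unfold law
  refine Finset.sum_le_sum fun ω _ => ?_
  by_cases h1 : X ω = s
  · rw [if_pos h1, if_pos (h ω h1)]
  · rw [if_neg h1]
    split_ifs
    exacts [hp ω, le_rfl]

/-- Most values of the label are good. -/
theorem good_lab {Ω Z : Type} [Fintype Ω] {p : Ω → ℝ} (hp : IsLaw p) (lab : Ω → Z) (M : Z → ℝ)
    (hM : ∀ S : Finset Z, ∑ y ∈ S, M y ≤ 1) (hM0 : ∀ y, 0 ≤ M y) :
    3 / 4 ≤ Pe p (fun ω => M (lab ω) ≤ 4 * law p lab (lab ω)) := by
  classical
  have h0 := hp.nonneg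
  have h1 : 1 - Pe p (fun ω => M (lab ω) ≤ 4 * law p lab (lab ω)) ≤ 1 / 4 := by
    have h2 : 1 - Pe p (fun ω => M (lab ω) ≤ 4 * law p lab (lab ω)) =
        ∑ ω, p ω * (if M (lab ω) ≤ 4 * law p lab (lab ω) then 0 else 1) := by
      have e : (1 : ℝ) = ∑ ω, p ω := hp.sum_one.symm
      rw [Pe_eq]
      conv_lhs => rw [e]
      rw [← Finset.sum_sub_distrib]
      refine Finset.sum_congr rfl fun ω _ => ?_
      split_ifs <;> ring
    rw [h2, sum_mul_eq_sum_image p lab (fun y => if M y ≤ 4 * law p lab y then 0 else 1)]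
    calc ∑ y ∈ univ.image lab, law p lab y * (if M y ≤ 4 * law p lab y then 0 else 1) ≤
          ∑ y ∈ univ.image lab, M y / 4 := by
          refine Finset.sum_le_sum fun y _ => ?_
          split_ifs with h3
          · rw [mul_zero]
            exact div_nonneg (hM0 y) (by norm_num)
          · push Not at h3
            linarith
      _ = (∑ y ∈ univ.image lab, M y) / 4 := by rw [Finset.sum_div]
      _ ≤ 1 / 4 := div_le_div_of_nonneg_right (hM _) (by norm_num)
  linarith

/-- **The leaf of a value of the label.** -/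
theorem sl_lab (F : Fam m J) (i₁ : Fin m) {w L P r : ℕ} {δ ε c e₃ : ℝ} {Z : Type}
    (zx : (Fin m → ℤ) × (ℕ × F.ζ) → Z)
    (zs : ((Fin m → ℝ) × (Fin m → ℝ)) × F.ζ × ℕ → Z) (cz : Z → ℕ × (Fin m → ℤ))
    (cl : ((Fin m → ℝ) × (Fin m → ℝ)) × F.ζ × ℕ → Fin m → ℤ) (z₀ : F.ζ)
    (μ₀ : ((Fin m → ℝ) × (Fin m → ℝ)) → ℝ)
    (Λ : Finset (((Fin m → ℝ) × (Fin m → ℝ)) × F.ζ × ℕ)) (hΛ : ∀ ω, slam F w ω ∈ Λ)
    (hwL : w + L = P) (hPr : P ≤ r) (hr : r ≤ J) (hcl : ∀ ω, F.X w ω = cl (slam F w ω))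
    (hz : ∀ ω, zx (ptr F r ω) = zs (slam F w ω))
    (hcz : ∀ ω, cz (zx (ptr F r ω)) = (F.T1 w ω, F.X w ω)) (hz₀ : ∀ ω, F.Z ω = z₀)
    (hμ0 : ∀ l, 0 ≤ μ₀ l) (hc : 1 / 4 ≤ c)
    (hlaw : ∀ l t, law F.p (fun ω => (F.l ω, F.T1 P ω)) (l, t) ≤ c * μ₀ l / 2 ^ P)
    (hδ : 0 < δ) (hε : 0 ≤ ε) (hn : NCF F.p (slam F w) (Fam.pt F) (lB (chI i₁)) δ (fun _ => ε))
    (he₃ : 0 ≤ e₃)
    (hcard : ∀ ω, 0 < F.p ω → ((open Classical in ((univ.filter (fun ω' => 0 < F.p ω' ∧
      bas (ppos L (chI i₁)) (trp F P ω') = bas (ppos L (chI i₁)) (trp F P ω) ∧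
      zx (ptr F r ω') = zx (ptr F r ω))).image (fun ω' => F.X P ω' i₁)).card : ℕ) : ℝ) ≤
      Real.exp e₃) (y : Z) (hy : law F.p (fun ω => zx (ptr F r ω)) y ≠ 0)
    (hgd : Ml w μ₀ zs Λ y ≤ 4 * law F.p (fun ω => zx (ptr F r ω)) y) :
    Pool.KBX.SL L 2 δ ε (Real.log (4 * c)) e₃
      (Pool.Agent.H49.Ent.cond F.p (fun ω => zx (ptr F r ω)) y) (slam F w) (trp F P) (pT L)
      (ppos L (chI i₁)) (lA w (chI i₁) cl) (lB (chI i₁)) (Mu w μ₀ zs Λ y) := by
  classical
  have hp := F.isLaw
  have hp0 := hp.nonneg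
  have hPJ : P ≤ J := hPr.trans hr
  have hwJ : w ≤ J := by omega
  have hq : IsLaw (Pool.Agent.H49.Ent.cond F.p (fun ω => zx (ptr F r ω)) y) := isLaw_fib hp _ hy
  have hly : 0 < law F.p (fun ω => zx (ptr F r ω)) y :=
    lt_of_le_of_ne (law_nonneg hp0 _ _) (Ne.symm hy)
  obtain ⟨φP, hφP⟩ := trp_coarse F hPJ
  obtain ⟨φr, hφr⟩ := ptr_coarse F hr
  have hc0 : 0 < c := by linarith
  have hlf := leafr F hwL hPJ (chI i₁) cl hcl
  refine ⟨hlf.law hq, hδ, hε, ?_, Real.log_nonneg (by linarith), he₃, Mu_nonneg hμ0 y,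
    Mu_sum hμ0 y, ?_, ?_⟩
  · -- the fans
    have h1 : NCF (Pool.Agent.H49.Ent.cond F.p (fun ω => zx (ptr F r ω)) y) (slam F w)
        (Fam.pt F) (lB (chI i₁)) δ (fun _ => ε) := by
      refine hn.fib hp (y := fun ω => zx (ptr F r ω)) ?_ hy
      intro ω ω' _ _ h
      have e1 : ptr F r ω = φr (Fam.pt F ω) := hφr ω
      have e2 : ptr F r ω' = φr (Fam.pt F ω') := hφr ω'
      change zx (ptr F r ω) = zx (ptr F r ω')
      rw [e1, e2, h]
    have h2 : trp F P = fun ω => φP (Fam.pt F ω) := funext hφP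
    rw [h2]
    exact Pool.Agent.H81.KBX.ncf_coarse hq.nonneg hε h1 φP
  · -- the times
    intro ω
    have hexp : Real.exp (Real.log (4 * c)) = 4 * c := Real.exp_log (by linarith)
    rw [hexp]
    by_cases hyω : zs (slam F w ω) = y
    · -- the weight is positive
      have hM : 0 < Ml w μ₀ zs Λ y := by
        obtain ⟨ω₀, h1, h2⟩ : ∃ ω₀, 0 < F.p ω₀ ∧ zx (ptr F r ω₀) = y := by
          by_contra hcon
          push Not at hcon
          refine hy ?_
          unfold law
          refine Finset.sum_eq_zero fun ω' _ => ?_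
          split_ifs with h3
          · by_contra hne
            exact hcon ω' (lt_of_le_of_ne (hp0 ω') (Ne.symm hne)) h3
          · rfl
        have h3 := (law_pos hp0 (fun ω => (F.l ω, F.T1 P ω)) h1).trans_le
          (hlaw (F.l ω₀) (F.T1 P ω₀))
        have h4 : 0 < μ₀ (F.l ω₀) := by
          rcases (hμ0 (F.l ω₀)).eq_or_lt with h5 | h5
          · rw [← h5, mul_zero, zero_div] at h3
            exact absurd h3 (lt_irrefl _)
          · exact h5
        have h5 : 0 < Wl w μ₀ (slam F w ω₀) := div_pos h4 (by positivity)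
        refine lt_of_lt_of_le h5 ?_
        unfold Ml
        refine Finset.single_le_sum (f := fun l => Wl w μ₀ l)
          (fun l _ => Wl_nonneg hμ0 l) ?_
        rw [Finset.mem_filter]
        exact ⟨hΛ ω₀, by rw [← hz ω₀, h2]⟩
      have h1 : law (Pool.Agent.H49.Ent.cond F.p (fun ω => zx (ptr F r ω)) y)
          (fun ω => (slam F w ω, pT L (trp F P ω))) (slam F w ω, pT L (trp F P ω)) ≤
          law F.p (fun ω => (F.l ω, F.T1 P ω)) (F.l ω, F.T1 P ω) /
            law F.p (fun ω => zx (ptr F r ω)) y := by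
        rw [law_cond]
        refine div_le_div_of_nonneg_right ?_ hly.le
        refine law_le_law hp0 ?_
        intro ω' h
        have h2 := (Prod.ext_iff.mp h).1
        have h3 := Prod.ext_iff.mp h2
        have h4 : slam F w ω' = slam F w ω := h3.1
        have h5 : pT L (trp F P ω') = pT L (trp F P ω) := h3.2
        have h6 : F.l ω' = F.l ω := congrArg Prod.fst h4
        have h7 : F.T1 w ω' = F.T1 w ω := congrArg (fun s => s.2.2) h4
        have key : ∀ ω, F.T1 P ω = 2 ^ L * F.T1 w ω + pT L (trp F P ω) := by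
          intro ω
          have h8 : (trp F P ω).2.1 = F.T1 P ω := rfl
          have h9 := T1_div F (w := w) (K := L) (by omega) ω
          unfold pT
          rw [h8, ← hwL, h9]
          exact (Nat.div_add_mod _ _).symm
        refine Prod.ext h6 ?_
        change F.T1 P ω' = F.T1 P ω
        rw [key, key, h5, h7]
      refine h1.trans ?_
      have h2 : Mu w μ₀ zs Λ y (slam F w ω) = Wl w μ₀ (slam F w ω) / Ml w μ₀ zs Λ y := by
        unfold Mu
        rw [if_pos ⟨hΛ ω, hyω⟩]
      rw [h2]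
      have h3 := hlaw (F.l ω) (F.T1 P ω)
      have h4 : Wl w μ₀ (slam F w ω) = μ₀ (F.l ω) / 2 ^ w := rfl
      rw [h4]
      have h5 : 1 / law F.p (fun ω => zx (ptr F r ω)) y ≤ 4 / Ml w μ₀ zs Λ y := by
        rw [div_le_div_iff₀ hly hM]
        linarith
      have h6 : (2 : ℝ) ^ P = 2 ^ w * 2 ^ L := by rw [← hwL, pow_add]
      have h7 : 0 ≤ c * μ₀ (F.l ω) / 2 ^ P :=
        div_nonneg (mul_nonneg hc0.le (hμ0 _)) (by positivity)
      calc law F.p (fun ω => (F.l ω, F.T1 P ω)) (F.l ω, F.T1 P ω) /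
            law F.p (fun ω => zx (ptr F r ω)) y ≤
            c * μ₀ (F.l ω) / 2 ^ P / law F.p (fun ω => zx (ptr F r ω)) y :=
            div_le_div_of_nonneg_right h3 hly.le
        _ = c * μ₀ (F.l ω) / 2 ^ P * (1 / law F.p (fun ω => zx (ptr F r ω)) y) := by ring
        _ ≤ c * μ₀ (F.l ω) / 2 ^ P * (4 / Ml w μ₀ zs Λ y) := mul_le_mul_of_nonneg_left h5 h7
        _ = _ := by
          rw [h6]
          field_simp
    · have h1 : law (Pool.Agent.H49.Ent.cond F.p (fun ω => zx (ptr F r ω)) y)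
          (fun ω => (slam F w ω, pT L (trp F P ω))) (slam F w ω, pT L (trp F P ω)) = 0 := by
        unfold law
        refine Finset.sum_eq_zero fun ω' _ => ?_
        split_ifs with h
        · have h2 : slam F w ω' = slam F w ω := (Prod.ext_iff.mp h).1
          unfold Pool.Agent.H49.Ent.cond
          rw [if_neg]
          intro h3
          have h4 : zx (ptr F r ω') = y := h3
          rw [hz ω', h2] at h4
          exact hyω h4
        · rfl
      rw [h1]
      exact div_nonneg (mul_nonneg (by linarith) (Mu_nonneg hμ0 _ _)) (by positivity)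
  · -- thinness
    intro G hG hb hx
    rcases G.eq_empty_or_nonempty with h0 | ⟨ω₀, hω₀⟩
    · rw [h0, Finset.card_empty]
      push_cast
      exact (Real.exp_pos _).le
    have hpos : ∀ ω ∈ G, 0 < F.p ω ∧ zx (ptr F r ω) = y := fun ω hω =>
      (cond_pos_iff hp0 (fun ω => zx (ptr F r ω)) y ω).1 (hG ω hω)
    refine le_trans ?_ (hcard ω₀ (hpos ω₀ hω₀).1)
    have h1 : G.card ≤ ((univ.filter (fun ω' => 0 < F.p ω' ∧
        bas (ppos L (chI i₁)) (trp F P ω') = bas (ppos L (chI i₁)) (trp F P ω₀) ∧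
        zx (ptr F r ω') = zx (ptr F r ω₀))).image (fun ω' => F.X P ω' i₁)).card := by
      refine Finset.card_le_card_of_injOn (fun ω => F.X P ω i₁) ?_ ?_
      · intro ω hω
        refine Finset.mem_coe.2 (Finset.mem_image.2 ⟨ω, ?_, rfl⟩)
        rw [Finset.mem_filter]
        exact ⟨Finset.mem_univ _, (hpos ω hω).1, hb ω hω ω₀ hω₀,
          (hpos ω hω).2.trans (hpos ω₀ hω₀).2.symm⟩
      · intro ω hω ω' hω' h
        refine hx ω hω ω' hω' ?_
        have h2 := hb ω hω ω' hω'
        have h3 : cz (zx (ptr F r ω)) = cz (zx (ptr F r ω')) := by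
          rw [(hpos ω hω).2, (hpos ω' hω').2]
        rw [hcz, hcz] at h3
        have h4 := Prod.ext_iff.mp h3
        have h5 : F.T1 w ω = F.T1 w ω' := h4.1
        have h6 : F.X w ω = F.X w ω' := h4.2
        refine Prod.ext ?_ (Prod.ext ?_ ?_)
        · funext j
          change F.X P ω j = F.X P ω' j
          by_cases hj : j = i₁
          · rw [hj]
            exact h
          · have h7 := congrFun h2 j
            unfold bas ppos chI at h7
            simp only [Option.elim, if_neg hj] at h7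
            have h8 : ∀ ω, (trp F P ω).1 j = F.X P ω j := fun _ => rfl
            rw [h8, h8] at h7
            have a1 := emod_toNat (F.X P ω j) L
            have a2 := emod_toNat (F.X P ω' j) L
            have a3 := Xr_emod F hwL ω j
            have a4 := Xr_emod F hwL ω' j
            rw [← a1, h7, a2, a4, h6] at a3
            linarith
        · change F.T1 P ω = F.T1 P ω'
          have h7 := congrFun h2 i₁
          unfold bas ppos chI at h7
          simp only [Option.elim, if_true] at h7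
          have h8 : ∀ ω, (trp F P ω).2.1 = F.T1 P ω := fun _ => rfl
          rw [h8, h8] at h7
          have key : ∀ ω, F.T1 P ω = 2 ^ L * F.T1 w ω + F.T1 P ω % 2 ^ L := by
            intro ω
            have h9 := T1_div F (w := w) (K := L) (by omega) ω
            rw [hwL] at h9
            rw [h9]
            exact (Nat.div_add_mod _ _).symm
          rw [key ω, key ω', h7, h5]
        · change F.Z ω = F.Z ω'
          rw [hz₀, hz₀]
    exact_mod_cast h1

end Pool.STPA
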