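import Pool.Agent.H37.STPA.Full

/-!
# Thinness at lower precision

The label `zx` determines, with the base coordinates at full resolution, the passive coordinate at
precision `P` up to `B` values. Then the passive coordinate at precision `P` has a small entropy
given the label and the base coordinates at precision `P`.
-/

set_option autoImplicit false

namespace Pool.STPA

open Finset Real
open Pool.Agent.H49.Ent Pool.Agent.H32.Dense Pool.STK Pool.KA Pool.KSAT Pool.K2S Pool.KS3 Pool.FLF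
open Pool.KAL Pool.PB

variable {m J : ℕ}

/-- The first digits of the base coordinates. -/
lemma bas_div (F : Fam m J) (i₁ : Fin m) {w L P : ℕ} (h : w + L = P) (hP : P ≤ J) (ω : F.Ω)
    (j : Fin m) : bas (ppos L (chI i₁)) (trp F P ω) j =
      bas (ppos (J - w) (chI i₁)) (trp F J ω) j / 2 ^ (J - P) := by
  have e1 : J - w = L + (J - P) := by omega
  unfold bas ppos chI
  by_cases hj : j = i₁
  · subst hj
    simp only [Option.elim, if_true]
    have h1 : (trp F P ω).2.1 = F.T ω / 2 ^ (J - P) := rfl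
    have h2 : (trp F J ω).2.1 = F.T ω := by
      change F.T ω / 2 ^ (J - J) = F.T ω
      rw [Nat.sub_self, pow_zero, Nat.div_one]
    rw [h1, h2, e1]
    exact (mod_div_pow (F.T ω) L (J - P)).symm
  · simp only [Option.elim, if_neg hj]
    have h1 : (trp F P ω).1 j = F.X J ω j / 2 ^ (J - P) :=
      X_div F (w := P) (L := J - P) (by omega) ω j
    have h2 : (trp F J ω).1 j = F.X J ω j := rfl
    rw [h1, h2, e1]
    exact (emod_div_pow (F.X J ω j) L (J - P)).symm

/-- Digits of an integer. -/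
lemma emod_mod_pow (x : ℤ) (a b : ℕ) :
    (x % 2 ^ (a + b)).toNat % 2 ^ b = (x % 2 ^ b).toNat := by
  have h0 : (0 : ℤ) < 2 ^ (a + b) := by positivity
  have h1 : (0 : ℤ) < 2 ^ b := by positivity
  have h2 : (((x % 2 ^ (a + b)).toNat % 2 ^ b : ℕ) : ℤ) = (((x % 2 ^ b).toNat : ℕ) : ℤ) := by
    push_cast
    rw [Int.toNat_of_nonneg (Int.emod_nonneg _ h0.ne'), Int.toNat_of_nonneg (Int.emod_nonneg _ h1.ne')]
    rw [Int.emod_emod_of_dvd x (pow_dvd_pow 2 (Nat.le_add_left b a))]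
  exact_mod_cast h2

/-- The last digits of the base coordinates. -/
lemma bas_mod (F : Fam m J) (i₁ : Fin m) {w P : ℕ} (h : w ≤ P) (hP : P ≤ J) (ω : F.Ω)
    (j : Fin m) : bas (ppos (J - P) (chI i₁)) (trp F J ω) j =
      bas (ppos (J - w) (chI i₁)) (trp F J ω) j % 2 ^ (J - P) := by
  have e1 : J - w = (P - w) + (J - P) := by omega
  unfold bas ppos chI
  by_cases hj : j = i₁
  · subst hj
    simp only [Option.elim, if_true]
    rw [e1]
    exact (Nat.mod_mod_of_dvd _ (pow_dvd_pow 2 (Nat.le_add_left _ _))).symm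
  · simp only [Option.elim, if_neg hj]
    rw [e1]
    exact (emod_mod_pow _ _ _).symm

/-- The cell and the digits determine the base coordinates. -/
lemma bas_inj (F : Fam m J) (i₁ : Fin m) {w r : ℕ} (hw : w ≤ J) (hr : r ≤ J) {ω ω' : F.Ω}
    (hb : bas (ppos (J - w) (chI i₁)) (trp F J ω) = bas (ppos (J - w) (chI i₁)) (trp F J ω'))
    (hT : F.T1 w ω = F.T1 w ω') (hX : F.X w ω = F.X w ω') :
    F.T ω = F.T ω' ∧ ∀ j ≠ i₁, F.X r ω j = F.X r ω' j := by
  constructor
  · have h1 := congrFun hb i₁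
    unfold bas ppos chI at h1
    simp only [Option.elim, if_true] at h1
    have h2 : ∀ ω, (trp F J ω).2.1 = F.T ω := by
      intro ω
      change F.T ω / 2 ^ (J - J) = F.T ω
      rw [Nat.sub_self, pow_zero, Nat.div_one]
    rw [h2, h2] at h1
    have h3 := Nat.div_add_mod (F.T ω) (2 ^ (J - w))
    have h4 := Nat.div_add_mod (F.T ω') (2 ^ (J - w))
    have h5 : F.T ω / 2 ^ (J - w) = F.T ω' / 2 ^ (J - w) := hT
    rw [← h3, ← h4, h1, h5]
  · intro j hj
    have h1 := congrFun hb j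
    unfold bas ppos chI at h1
    simp only [Option.elim, if_neg hj] at h1
    have h2 : ∀ ω, (trp F J ω).1 j = F.X J ω j := fun _ => rfl
    rw [h2, h2] at h1
    have h3 : F.X J ω j % 2 ^ (J - w) = F.X J ω' j % 2 ^ (J - w) := by
      have a1 := emod_toNat (F.X J ω j) (J - w)
      have a2 := emod_toNat (F.X J ω' j) (J - w)
      rw [← a1, ← a2, h1]
    have h4 := X_emod F (w := w) (L := J - w) (by omega) ω j
    have h5 := X_emod F (w := w) (L := J - w) (by omega) ω' j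
    have h6 : F.X J ω j = F.X J ω' j := by
      rw [h3, h5, hX] at h4
      linarith
    rw [X_div F (w := r) (L := J - r) (by omega) ω j, X_div F (w := r) (L := J - r) (by omega) ω' j,
      h6]

/-- **Thinness at lower precision.** -/
theorem thin_c (m : ℕ) : ∃ C : ℝ, 0 ≤ C ∧ ∀ (J : ℕ) (F : Fam m J) (i₁ : Fin m)
    (w L P r κ γ B : ℕ) (δ ε e₁ : ℝ) (Z : Type)
    (zx : (Fin m → ℤ) × (ℕ × F.ζ) → Z)
    (zs : ((Fin m → ℝ) × (Fin m → ℝ)) × F.ζ × ℕ → Z) (cz : Z → ℕ × (Fin m → ℤ))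
    (cl cl' : ((Fin m → ℝ) × (Fin m → ℝ)) × F.ζ × ℕ → Fin m → ℤ),
    w + L = P → P ≤ r → r ≤ J → (∀ ω, F.X w ω = cl (slam F w ω)) →
    (∀ ω, F.X P ω = cl' (slam F P ω)) → (∀ ω, zx (ptr F r ω) = zs (slam F w ω)) →
    (∀ ω, cz (zx (ptr F r ω)) = (F.T1 w ω, F.X w ω)) →
    (∀ ω, (open Classical in ((univ.filter (fun ω' => zx (ptr F r ω') = zx (ptr F r ω) ∧
      F.T ω' = F.T ω ∧ ∀ j ≠ i₁, F.X r ω' j = F.X r ω j)).image
        (fun ω' => F.X P ω' i₁)).card) ≤ B) →
    F.Tm e₁ → 0 < δ → 0 ≤ ε →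
    NCF F.p (slam F w) (Fam.pt F) (lB (chI i₁)) δ (fun _ => ε) →
    m.factorial * (2 : ℝ) ^ m ≤ δ ^ m * 2 ^ γ → 1 ≤ κ →
    CH F.p (fun ω => F.X P ω i₁)
      (fun ω => (bas (ppos L (chI i₁)) (trp F P ω), zx (ptr F r ω))) ≤
      Real.log B + 2 * (m * e₁ + C * (J / κ + γ + κ + 1 + ε * J)) := by
  classical
  obtain ⟨C, hC, hfull⟩ := full_c m
  refine ⟨C, hC, ?_⟩
  intro J F i₁ w L P r κ γ B δ ε e₁ Z zx zs cz cl cl' hwL hPr hr hcl hcl' hz hcz hN hTm hδ hε hn
    hγ hκ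
  have hp := F.isLaw
  have hp0 := hp.nonneg
  have hPJ : P ≤ J := hPr.trans hr
  have hwJ : w ≤ J := by omega
  obtain ⟨φP, hφP⟩ := trp_coarse F hPJ
  obtain ⟨φr, hφr⟩ := ptr_coarse F hr
  have hφr' : ∀ ω, ptr F r ω = φr (Fam.pt F ω) := hφr
  obtain ⟨ζ, hζ⟩ : ∃ ζ : F.Ω → Z, ζ = fun ω => zx (ptr F r ω) := ⟨_, rfl⟩
  obtain ⟨b', hb'⟩ : ∃ b' : F.Ω → Fin m → ℕ, b' = fun ω => bas (ppos L (chI i₁)) (trp F P ω) :=
    ⟨_, rfl⟩
  obtain ⟨bJ, hbJ⟩ : ∃ bJ : F.Ω → Fin m → ℕ,
    bJ = fun ω => bas (ppos (J - w) (chI i₁)) (trp F J ω) := ⟨_, rfl⟩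
  obtain ⟨bu, hbu⟩ : ∃ bu : F.Ω → Fin m → ℕ,
    bu = fun ω => bas (ppos (J - P) (chI i₁)) (trp F J ω) := ⟨_, rfl⟩
  obtain ⟨Nd, hNd⟩ : ∃ Nd : F.Ω → ℤ, Nd = fun ω => F.X P ω i₁ := ⟨_, rfl⟩
  have hζa : ∀ ω, ζ ω = zx (ptr F r ω) := fun ω => by rw [hζ]
  have hb'a : ∀ ω, b' ω = bas (ppos L (chI i₁)) (trp F P ω) := fun ω => by rw [hb']
  have hbJa : ∀ ω, bJ ω = bas (ppos (J - w) (chI i₁)) (trp F J ω) := fun ω => by rw [hbJ]
  have hbua : ∀ ω, bu ω = bas (ppos (J - P) (chI i₁)) (trp F J ω) := fun ω => by rw [hbu]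
  have hNda : ∀ ω, Nd ω = F.X P ω i₁ := fun ω => by rw [hNd]
  -- fullness in the window `w`, to the precision `P`
  have f3 := hfull J F i₁ w L P κ γ δ ε e₁ Z ζ (fun ξ => zx (φr ξ)) cl hwL hPJ hcl
    (fun ω => by rw [hζa, hφr']) (by
      intro ω ω' _ _ h
      rw [hζa, hζa, hz, hz, h]) hTm hδ hε hn hγ hκ
  rw [← hb'] at f3
  -- fullness in the window `P`
  have f4 := hfull J F i₁ P (J - P) J κ γ δ ε e₁ (ℤ × (Fin m → ℕ) × Z)
    (fun ω => (Nd ω, b' ω, ζ ω))
    (fun ξ => (ξ.1 i₁ / 2 ^ (J - P), bas (ppos L (chI i₁)) (φP ξ), zx (φr ξ))) cl' (by omega)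
    le_rfl hcl' (by
      intro ω
      rw [hNda, hb'a, hζa, hφP, hφr', X_div F (w := P) (L := J - P) (by omega) ω i₁]
      rfl) (by
      intro ω ω' _ _ h
      have t1 : trp F P ω = trp F P ω' := by
        have s1 : (slam F P ω).2.2 = F.T1 P ω := rfl
        have s2 : (slam F P ω).2.1 = F.Z ω := rfl
        have s3 : (slam F P ω').2.2 = F.T1 P ω' := rfl
        have s4 : (slam F P ω').2.1 = F.Z ω' := rfl
        unfold trp
        rw [← s1, ← s2, ← s3, ← s4, hcl' ω, hcl' ω', h]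
      have t2 : slam F w ω = slam F w ω' := by
        rw [slam_coarse F (by omega : w ≤ P) hPJ ω, slam_coarse F (by omega : w ≤ P) hPJ ω', h]
      simp only [hNda, hb'a, hζa]
      rw [hcl' ω, hcl' ω', h, t1, hz ω, hz ω', t2]) hTm hδ hε hn hγ hκ
  rw [← hbu] at f4
  -- the digits
  have d1 : ∀ ω j, b' ω j = bJ ω j / 2 ^ (J - P) := fun ω j => by
    rw [hb'a, hbJa]
    exact bas_div F i₁ hwL hPJ ω j
  have d2 : ∀ ω j, bu ω j = bJ ω j % 2 ^ (J - P) := fun ω j => by
    rw [hbua, hbJa]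
    exact bas_mod F i₁ (by omega) hPJ ω j
  have g1 : CH F.p bu (fun ω => (Nd ω, b' ω, ζ ω)) ≤ CH F.p bJ (fun ω => (Nd ω, b' ω, ζ ω)) := by
    refine CH_mono_left hp0 fun ω ω' _ _ h => ?_
    have := (Prod.ext_iff.mp h).1
    simp only at this
    funext j
    rw [d2, d2, this]
  have g2 : CH F.p bJ ζ ≤ m * ((J - w : ℕ) * Real.log 2) := by
    have h1 := CH_le_card hp0 hp.sum_one bJ ζ
      (fun _ => Fintype.piFinset fun _ : Fin m => Finset.range (2 ^ (J - w))) (by
        intro ω _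
        rw [Fintype.mem_piFinset]
        intro j
        rw [Finset.mem_range, hbJa]
        unfold bas ppos
        cases chI i₁ (some j) with
        | none => exact Nat.mod_lt _ (Nat.two_pow_pos _)
        | some i =>
          simp only [Option.elim]
          have h1 := emod_toNat ((trp F J ω).1 i) (J - w)
          have h2 : (trp F J ω).1 i % 2 ^ (J - w) < 2 ^ (J - w) :=
            Int.emod_lt_of_pos _ (by positivity)
          have h3 : ((((trp F J ω).1 i % 2 ^ (J - w)).toNat : ℕ) : ℤ) <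
              ((2 ^ (J - w) : ℕ) : ℤ) := by
            rw [h1]
            push_cast
            exact h2
          exact_mod_cast h3)
    refine h1.trans (le_of_eq ?_)
    rw [Ex_const hp.sum_one, Fintype.card_piFinset]
    simp only [Finset.card_range, Finset.prod_const, Finset.card_univ, Fintype.card_fin]
    push_cast
    rw [Real.log_pow, Real.log_pow]
  have g3 : CH F.p (fun ω => (Nd ω, b' ω)) (fun ω => (bJ ω, ζ ω)) ≤ Real.log B := by
    have h1 : CH F.p (fun ω => (Nd ω, b' ω)) (fun ω => (bJ ω, ζ ω)) ≤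
        CH F.p Nd (fun ω => (bJ ω, ζ ω)) := by
      refine CH_mono_left hp0 fun ω ω' _ _ h => ?_
      have k1 := (Prod.ext_iff.mp h).1
      have k2 := (Prod.ext_iff.mp (Prod.ext_iff.mp h).2).1
      simp only at k1 k2
      refine Prod.ext k1 ?_
      funext j
      simp only
      rw [d1, d1, k2]
    refine h1.trans ?_
    have h2 := CH_le_card hp0 hp.sum_one Nd (fun ω => (bJ ω, ζ ω))
      (fun t => (univ.filter (fun ω' => (bJ ω', ζ ω') = t)).image Nd)
      (fun ω _ => Finset.mem_image_of_mem Nd (by simp))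
    refine h2.trans ?_
    have h3 : ∀ ω, Real.log ((((univ.filter
        (fun ω' => (bJ ω', ζ ω') = (bJ ω, ζ ω))).image Nd).card : ℝ)) ≤ Real.log B := by
      intro ω
      refine Real.log_le_log ?_ ?_
      · have : 0 < ((univ.filter (fun ω' => (bJ ω', ζ ω') = (bJ ω, ζ ω))).image Nd).card :=
          Finset.card_pos.2 ⟨Nd ω, Finset.mem_image_of_mem Nd (by simp)⟩
        exact_mod_cast this
      · have : ((univ.filter (fun ω' => (bJ ω', ζ ω') = (bJ ω, ζ ω))).image Nd).card ≤ B := by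
          refine le_trans (Finset.card_le_card ?_) (hN ω)
          intro v hv
          obtain ⟨ω', h4, h5⟩ := Finset.mem_image.1 hv
          have h6 := (Finset.mem_filter.1 h4).2
          have h7 := (Prod.ext_iff.mp h6).1
          have h8 := (Prod.ext_iff.mp h6).2
          simp only at h7 h8
          rw [hζa, hζa] at h8
          have h9 := hcz ω'
          have h10 := hcz ω
          rw [h8] at h9
          rw [h9] at h10
          have h11 := Prod.ext_iff.mp h10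
          simp only at h11
          rw [hbJa, hbJa] at h7
          obtain ⟨k1, k2⟩ := bas_inj F i₁ (r := r) hwJ hr h7 h11.1 h11.2
          refine Finset.mem_image.2 ⟨ω', ?_, ?_⟩
          · rw [Finset.mem_filter]
            exact ⟨Finset.mem_univ _, h8, k1, k2⟩
          · rw [← h5, hNda]
        exact_mod_cast this
    calc Ex F.p (fun ω => Real.log ((((univ.filter
        (fun ω' => (bJ ω', ζ ω') = (bJ ω, ζ ω))).image Nd).card : ℝ))) ≤
          Ex F.p (fun _ => Real.log B) := Ex_mono hp0 fun ω _ => h3 ω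
      _ = _ := Ex_const hp.sum_one _
  -- the chain rule
  have c1 := CH_chain hp0 Nd b' ζ
  have c2 := CH_chain hp0 bJ (fun ω => (Nd ω, b' ω)) ζ
  have c3 := CH_chain hp0 (fun ω => (Nd ω, b' ω)) bJ ζ
  have c4 : CH F.p (fun ω => (bJ ω, (Nd ω, b' ω))) ζ =
      CH F.p (fun ω => ((Nd ω, b' ω), bJ ω)) ζ := by
    refine CH_congr hp0 ?_ ?_ (fun ω ω' _ _ h => h) (fun ω ω' _ _ h => h) <;>
    · intro ω ω' _ _ h
      have h1 := Prod.ext_iff.mp (Prod.ext_iff.mp h).1
      exact Prod.ext h1.2 h1.1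
  have c5 : CH F.p bJ (fun ω => ((Nd ω, b' ω), ζ ω)) = CH F.p bJ (fun ω => (Nd ω, b' ω, ζ ω)) := by
    refine CH_congr hp0 (fun ω ω' _ _ h => (Prod.ext_iff.mp h).1)
      (fun ω ω' _ _ h => (Prod.ext_iff.mp h).1) ?_ ?_
    · intro ω ω' _ _ h
      have h1 := Prod.ext_iff.mp h
      have h2 := Prod.ext_iff.mp h1.1
      exact Prod.ext h2.1 (Prod.ext h2.2 h1.2)
    · intro ω ω' _ _ h
      have h1 := Prod.ext_iff.mp h
      have h2 := Prod.ext_iff.mp h1.2
      exact Prod.ext (Prod.ext h1.1 h2.1) h2.2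
  rw [c5] at c2
  have hgoal : CH F.p (fun ω => F.X P ω i₁)
      (fun ω => (bas (ppos L (chI i₁)) (trp F P ω), zx (ptr F r ω))) =
      CH F.p Nd (fun ω => (b' ω, ζ ω)) := by rw [hNd, hb', hζ]
  rw [hgoal]
  -- the errors
  have hJ1 : (L : ℝ) ≤ J := by
    have : L ≤ J := by omega
    exact_mod_cast this
  have hJ2 : ((J - P : ℕ) : ℝ) ≤ J := by
    have : J - P ≤ J := Nat.sub_le _ _
    exact_mod_cast this
  have hκ0 : (0 : ℝ) < κ := by exact_mod_cast hκ
  have e1 : C * (L / κ + γ + κ + 1 + ε * L) ≤ C * (J / κ + γ + κ + 1 + ε * J) := by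
    refine mul_le_mul_of_nonneg_left ?_ hC
    have h1 : (L : ℝ) / κ ≤ J / κ := div_le_div_of_nonneg_right hJ1 hκ0.le
    have h2 : ε * L ≤ ε * J := mul_le_mul_of_nonneg_left hJ1 hε
    linarith
  have e2 : C * (((J - P : ℕ) : ℝ) / κ + γ + κ + 1 + ε * ((J - P : ℕ) : ℝ)) ≤
      C * (J / κ + γ + κ + 1 + ε * J) := by
    refine mul_le_mul_of_nonneg_left ?_ hC
    have h1 : ((J - P : ℕ) : ℝ) / κ ≤ J / κ := div_le_div_of_nonneg_right hJ2 hκ0.le
    have h2 : ε * ((J - P : ℕ) : ℝ) ≤ ε * J := mul_le_mul_of_nonneg_left hJ2 hε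
    linarith
  have e3 : ((J - w : ℕ) : ℝ) = L + ((J - P : ℕ) : ℝ) := by
    have : J - w = L + (J - P) := by omega
    rw [this]
    push_cast
    ring
  rw [e3] at g2
  nlinarith

end Pool.STPA
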